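/-
Generation of Sp(2g, Z) by the transvections along the classes of the twist curves:
e i, f i, f i - e (i + 1).
-/
import Pool.Agent.H.MP_59b15d_al.sp.Base

set_option autoImplicit false

namespace Pool.Agent.H.MP_59b15d_al.SP

variable {g : ℕ}

/-- The group generated by the transvections along the standard classes. -/
def Hum (g : ℕ) : Subgroup (Sp g) :=
  Subgroup.closure {A | (∃ i, A = T (e i) 1) ∨ (∃ i, A = T (f i) 1) ∨
    ∃ i j : Fin g, (j : ℕ) = i + 1 ∧ A = T (f i - e j) 1}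

lemma T_mem_of {H : Subgroup (Sp g)} {v : V g} (h : T v 1 ∈ H) (s : ℤ) : T v s ∈ H := by
  have := H.zpow_mem h s
  rwa [T_zpow, one_mul] at this

lemma T_neg (v : V g) (s : ℤ) : T (-v) s = T v s := by
  have := T_smul (-1) v s
  simpa using this

lemma T_conj_mem {H : Subgroup (Sp g)} {A : Sp g} (hA : A ∈ H) {v : V g} {s : ℤ}
    (h : T v s ∈ H) : T (A v) s ∈ H := by
  rw [← T_conj]
  exact H.mul_mem (H.mul_mem hA h) (H.inv_mem hA)

lemma S_conj (A : Sp g) (u w : V g) (s : ℤ) : A * S u w s * A⁻¹ = S (A u) (A w) s := by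
  unfold S
  rw [← sp_add, ← T_conj, ← T_conj, ← T_conj]
  group

lemma S_conj_mem {H : Subgroup (Sp g)} {A : Sp g} (hA : A ∈ H) {u w : V g} {s : ℤ}
    (h : S u w s ∈ H) : S (A u) (A w) s ∈ H := by
  rw [← S_conj]
  exact H.mul_mem (H.mul_mem hA h) (H.inv_mem hA)

lemma S_comm {u w : V g} (h : om u w = 0) (s : ℤ) : S u w s = S w u s := by
  have h' : om w u = 0 := by rw [om_swap, h]; rfl
  refine sp_ext fun x => ?_
  rw [S_apply h, S_apply h']
  module

lemma S_neg_right {u w : V g} (h : om u w = 0) (s : ℤ) : S u (-w) s = S u w (-s) := by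
  have h' : om u (-w) = 0 := by rw [om_neg_right, h]; rfl
  refine sp_ext fun x => ?_
  rw [S_apply h, S_apply h', om_neg_right]
  module

lemma S_neg_left {u w : V g} (h : om u w = 0) (s : ℤ) : S (-u) w s = S u w (-s) := by
  have h' : om (-u) w = 0 := by rw [om_neg_left, h]; rfl
  refine sp_ext fun x => ?_
  rw [S_apply h, S_apply h', om_neg_right]
  module

lemma S_mem_of {H : Subgroup (Sp g)} {u w : V g} (h1 : T u 1 ∈ H) (h2 : T w 1 ∈ H)
    (h3 : T (u + w) 1 ∈ H) (s : ℤ) : S u w s ∈ H :=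
  H.mul_mem (H.mul_mem (T_mem_of h3 s) (T_mem_of h1 _)) (T_mem_of h2 _)

lemma S_add_right {u w w' : V g} (h : om u w = 0) (h' : om u w' = 0) (s : ℤ) :
    S u (w + w') s = S u w s * S u w' s * T u (s ^ 2 * om w w') := by
  have h1' : om w' u = 0 := by rw [om_swap, h']; rfl
  have h2 : om u (w + w') = 0 := by rw [om_add_right, h, h']; rfl
  refine sp_ext fun x => ?_
  rw [sp_mul, sp_mul, S_apply h2, S_apply h, S_apply h', T_apply]
  simp only [om_add_left, om_add_right, om_smul_left, om_self, h, h', h1', om_swap w w']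
  module

section

lemma e_mem (i : Fin g) (s : ℤ) : T (e i) s ∈ Hum g :=
  T_mem_of (Subgroup.subset_closure (Or.inl ⟨i, rfl⟩)) s

lemma f_mem (i : Fin g) (s : ℤ) : T (f i) s ∈ Hum g :=
  T_mem_of (Subgroup.subset_closure (Or.inr (Or.inl ⟨i, rfl⟩))) s

lemma fe_mem {i j : Fin g} (hij : (j : ℕ) = i + 1) (s : ℤ) : T (f i - e j) s ∈ Hum g :=
  T_mem_of (Subgroup.subset_closure (Or.inr (Or.inr ⟨i, j, hij, rfl⟩))) s

/-- Rotation of the handle `i`: `e i ↦ f i ↦ - e i`. -/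
def Rt (i : Fin g) : Sp g := T (e i) 1 * T (f i) 1 * T (e i) 1

lemma Rt_mem (i : Fin g) : Rt i ∈ Hum g :=
  (Hum g).mul_mem ((Hum g).mul_mem (e_mem i 1) (f_mem i 1)) (e_mem i 1)

lemma Rt_apply (i : Fin g) (x : V g) :
    Rt i x = x + (-(x i).1 - (x i).2) • e i + ((x i).1 - (x i).2) • f i := by
  rw [Rt, sp_mul, sp_mul, T_apply (e i), T_apply (f i), T_apply (e i)]
  simp only [om_add_left, om_smul_left, om_self, om_e_f, om_f_e]
  simp only [om_f, om_e]
  module

lemma Rt_e (i : Fin g) : Rt i (e i) = f i := by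
  rw [Rt_apply, e_self]
  simp

lemma Rt_f (i : Fin g) : Rt i (f i) = -e i := by
  rw [Rt_apply, f_self]
  simp

lemma Rt_e_ne {i j : Fin g} (h : i ≠ j) : Rt i (e j) = e j := by
  rw [Rt_apply, e_ne h]
  simp

lemma Rt_f_ne {i j : Fin g} (h : i ≠ j) : Rt i (f j) = f j := by
  rw [Rt_apply, f_ne h]
  simp

lemma S_ef_adj {i j : Fin g} (hij : (j : ℕ) = i + 1) (s : ℤ) :
    S (e i) (f j) s ∈ Hum g ∧ S (e j) (f i) s ∈ Hum g := by
  have hne : i ≠ j := by
    intro h
    rw [h] at hij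
    omega
  constructor
  · have h1 : T (Rt j (f i - e j)) 1 ∈ Hum g := T_conj_mem (Rt_mem j) (fe_mem hij 1)
    rw [sp_sub, Rt_f_ne hne.symm, Rt_e] at h1
    have h2 : T (Rt i (f i - f j)) 1 ∈ Hum g := T_conj_mem (Rt_mem i) h1
    rw [sp_sub, Rt_f, Rt_f_ne hne] at h2
    have h3 : T (e i + f j) 1 ∈ Hum g := by
      rw [← T_neg]
      convert h2 using 2
      module
    exact S_mem_of (e_mem i 1) (f_mem j 1) h3 s
  · have h3 : T (e j + -f i) 1 ∈ Hum g := by
      rw [← T_neg]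
      have := fe_mem hij 1
      convert this using 2
      module
    have h4 : T (-f i) 1 ∈ Hum g := by rw [T_neg]; exact f_mem i 1
    have h5 := S_mem_of (e_mem j 1) h4 h3 (-s)
    rw [S_neg_right (om_e_f_ne hne.symm), neg_neg] at h5
    exact h5

lemma S_ef_trans {i j k : Fin g} (hij : i ≠ j) (hjk : j ≠ k) (hik : i ≠ k)
    (h1 : ∀ s, S (e i) (f j) s ∈ Hum g) (h2 : ∀ s, S (e j) (f k) s ∈ Hum g) (s : ℤ) :
    S (e i) (f k) s ∈ Hum g := by
  have h3 := S_conj_mem (h2 1) (h1 (-s))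
  have e1 : S (e j) (f k) 1 (e i) = e i := by
    rw [S_apply (om_e_f_ne hjk), om_e_e, om_e_f_ne hik]
    simp
  have e2 : S (e j) (f k) 1 (f j) = f j + -f k := by
    rw [S_apply (om_e_f_ne hjk), om_f_e, om_f_f]
    simp
  rw [e1, e2] at h3
  have ha : om (e i) (f j) = 0 := om_e_f_ne hij
  have hb : om (e i) (-f k : V g) = 0 := by rw [om_neg_right, om_e_f_ne hik]; rfl
  rw [S_add_right ha hb, om_neg_right, om_f_f, neg_zero, mul_zero, T_zero, mul_one,
    S_neg_right (om_e_f_ne hik), neg_neg] at h3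
  have h4 := (Hum g).mul_mem ((Hum g).inv_mem (h1 (-s))) h3
  rwa [inv_mul_cancel_left] at h4

lemma S_ef_mem_aux (n : ℕ) : ∀ i j : Fin g, (j : ℕ) = i + n + 1 →
    (∀ s, S (e i) (f j) s ∈ Hum g) ∧ (∀ s, S (e j) (f i) s ∈ Hum g) := by
  induction n with
  | zero =>
    intro i j hij
    exact ⟨fun s => (S_ef_adj (by omega) s).1, fun s => (S_ef_adj (by omega) s).2⟩
  | succ n ih =>
    intro i j hij
    have hj := j.2
    let k : Fin g := ⟨i + n + 1, by omega⟩
    have hk : (k : ℕ) = i + n + 1 := rfl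
    obtain ⟨h1, h2⟩ := ih i k hk
    have h3 : ∀ s, S (e k) (f j) s ∈ Hum g := fun s => (S_ef_adj (by omega) s).1
    have h4 : ∀ s, S (e j) (f k) s ∈ Hum g := fun s => (S_ef_adj (by omega) s).2
    have n1 : i ≠ k := by intro h; have := congrArg Fin.val h; omega
    have n2 : k ≠ j := by intro h; have := congrArg Fin.val h; omega
    have n3 : i ≠ j := by intro h; have := congrArg Fin.val h; omega
    exact ⟨fun s => S_ef_trans n1 n2 n3 h1 h3 s, fun s => S_ef_trans n2.symm n1.symm n3.symm h4 h2 s⟩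

lemma S_ef_mem {i j : Fin g} (hij : i ≠ j) (s : ℤ) : S (e i) (f j) s ∈ Hum g := by
  rcases lt_trichotomy (i : ℕ) (j : ℕ) with h | h | h
  · exact (S_ef_mem_aux (j - i - 1) i j (by omega)).1 s
  · exact absurd (Fin.ext h) hij
  · exact (S_ef_mem_aux (i - j - 1) j i (by omega)).2 s

lemma S_ee_mem {i j : Fin g} (hij : i ≠ j) (s : ℤ) : S (e i) (e j) s ∈ Hum g := by
  have h := S_conj_mem (Rt_mem j) (S_ef_mem hij (-s))
  rw [Rt_e_ne hij.symm, Rt_f, S_neg_right (om_e_e i j), neg_neg] at h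
  exact h

end

end Pool.Agent.H.MP_59b15d_al.SP
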