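/-
Reduction of vectors by the group generated by the standard transvections; this group is
all of Sp(2g, Z).
-/
import Pool.Agent.H.MP_59b15d_al.h11c.Gen

set_option autoImplicit false

namespace Pool.Agent.H.MP_59b15d_al.SP

variable {g : ℕ}

lemma T_fix {v x : V g} (h : om x v = 0) (s : ℤ) : T v s x = x := by
  rw [T_apply, h, mul_zero, zero_smul, add_zero]

lemma S_fix {u w x : V g} (huw : om u w = 0) (h1 : om x u = 0) (h2 : om x w = 0) (s : ℤ) :
    S u w s x = x := by
  rw [S_apply huw, h1, h2, mul_zero, zero_smul, zero_smul, add_zero, add_zero]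

/-- elements of `Hum` fixing the handles outside `R` -/
def HF (R : Finset (Fin g)) : Subgroup (Sp g) where
  carrier := {A | A ∈ Hum g ∧ ∀ i, i ∉ R → A (e i) = e i ∧ A (f i) = f i}
  mul_mem' := by
    rintro A B ⟨hA, hA'⟩ ⟨hB, hB'⟩
    refine ⟨(Hum g).mul_mem hA hB, fun i hi => ?_⟩
    rw [sp_mul, sp_mul, (hB' i hi).1, (hB' i hi).2]
    exact hA' i hi
  one_mem' := ⟨(Hum g).one_mem, fun i _ => ⟨rfl, rfl⟩⟩
  inv_mem' := by
    rintro A ⟨hA, hA'⟩
    refine ⟨(Hum g).inv_mem hA, fun i hi => ?_⟩
    have h1 := sp_inv_apply A (e i)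
    have h2 := sp_inv_apply A (f i)
    rw [(hA' i hi).1] at h1
    rw [(hA' i hi).2] at h2
    exact ⟨h1, h2⟩

lemma mem_HF {R : Finset (Fin g)} {A : Sp g} : A ∈ HF R ↔
    A ∈ Hum g ∧ ∀ i, i ∉ R → A (e i) = e i ∧ A (f i) = f i := Iff.rfl

lemma Te_HF {R : Finset (Fin g)} {i : Fin g} (hi : i ∈ R) (s : ℤ) : T (e i) s ∈ HF R := by
  refine ⟨e_mem i s, fun j hj => ?_⟩
  have hne : j ≠ i := by rintro rfl; exact hj hi
  exact ⟨T_fix (om_e_e j i) s, T_fix (om_f_e_ne hne) s⟩

lemma Tf_HF {R : Finset (Fin g)} {i : Fin g} (hi : i ∈ R) (s : ℤ) : T (f i) s ∈ HF R := by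
  refine ⟨f_mem i s, fun j hj => ?_⟩
  have hne : j ≠ i := by rintro rfl; exact hj hi
  exact ⟨T_fix (om_e_f_ne hne) s, T_fix (om_f_f j i) s⟩

lemma Rt_HF {R : Finset (Fin g)} {i : Fin g} (hi : i ∈ R) : Rt i ∈ HF R :=
  (HF R).mul_mem ((HF R).mul_mem (Te_HF hi 1) (Tf_HF hi 1)) (Te_HF hi 1)

lemma Sef_HF {R : Finset (Fin g)} {i j : Fin g} (hi : i ∈ R) (hj : j ∈ R) (hij : i ≠ j) (s : ℤ) :
    S (e i) (f j) s ∈ HF R := by
  refine ⟨S_ef_mem hij s, fun k hk => ?_⟩
  have h1 : k ≠ i := by rintro rfl; exact hk hi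
  have h2 : k ≠ j := by rintro rfl; exact hk hj
  exact ⟨S_fix (om_e_f_ne hij) (om_e_e k i) (om_e_f_ne h2) s,
    S_fix (om_e_f_ne hij) (om_f_e_ne h1) (om_f_f k j) s⟩

lemma See_HF {R : Finset (Fin g)} {i j : Fin g} (hi : i ∈ R) (hj : j ∈ R) (hij : i ≠ j) (s : ℤ) :
    S (e i) (e j) s ∈ HF R := by
  refine ⟨S_ee_mem hij s, fun k hk => ?_⟩
  have h1 : k ≠ i := by rintro rfl; exact hk hi
  have h2 : k ≠ j := by rintro rfl; exact hk hj
  exact ⟨S_fix (om_e_e i j) (om_e_e k i) (om_e_e k j) s,
    S_fix (om_e_e i j) (om_f_e_ne h1) (om_f_e_ne h2) s⟩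

/-- the measure -/
def mu (v : V g) : ℕ := ∑ i, ((v i).1.natAbs + 2 * (v i).2.natAbs)

lemma mu_lt {v v' : V g} {i : Fin g} (h : ∀ j, j ≠ i → v' j = v j)
    (h' : (v' i).1.natAbs + 2 * (v' i).2.natAbs < (v i).1.natAbs + 2 * (v i).2.natAbs) :
    mu v' < mu v := by
  unfold mu
  refine Finset.sum_lt_sum (fun j _ => ?_) ⟨i, Finset.mem_univ i, h'⟩
  by_cases hj : j = i
  · rw [hj]; exact h'.le
  · rw [h j hj]

lemma addc_self (v : V g) (i : Fin g) (c d : ℤ) :
    (v + c • e i + d • f i) i = ((v i).1 + c, (v i).2 + d) := by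
  rw [Pi.add_apply, Pi.add_apply, Pi.smul_apply, Pi.smul_apply, e_self, f_self]
  ext <;> simp

lemma addc_ne (v : V g) {i j : Fin g} (h : j ≠ i) (c d : ℤ) :
    (v + c • e i + d • f i) j = v j := by
  rw [Pi.add_apply, Pi.add_apply, Pi.smul_apply, Pi.smul_apply, e_ne h, f_ne h]
  simp

lemma mu_lt' {v : V g} {i : Fin g} {c d : ℤ}
    (h' : ((v i).1 + c).natAbs + 2 * ((v i).2 + d).natAbs <
      (v i).1.natAbs + 2 * (v i).2.natAbs) : mu (v + c • e i + d • f i) < mu v := by
  refine mu_lt (fun j hj => addc_ne v hj c d) ?_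
  rw [addc_self]
  exact h'

lemma supp_add {R : Finset (Fin g)} {v : V g} (h : ∀ i, i ∉ R → v i = 0) {i : Fin g}
    (hi : i ∈ R) (c d : ℤ) : ∀ j, j ∉ R → (v + c • e i + d • f i) j = 0 := by
  intro j hj
  have : j ≠ i := by rintro rfl; exact hj hi
  rw [addc_ne v this, h j hj]

/-- Reduction of a vector to a multiple of `e k`. -/
theorem red (R : Finset (Fin g)) {k : Fin g} (hk : k ∈ R) : ∀ n : ℕ, ∀ v : V g,
    (∀ i, i ∉ R → v i = 0) → mu v = n → ∃ A ∈ HF R, ∃ d : ℤ, A v = d • e k := by
  intro n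
  induction n using Nat.strong_induction_on with
  | _ n ih =>
  intro v hv hn
  -- the step
  have step : ∀ (B : Sp g) (i : Fin g) (c d : ℤ), B ∈ HF R → i ∈ R →
      B v = v + c • e i + d • f i →
      ((v i).1 + c).natAbs + 2 * ((v i).2 + d).natAbs < (v i).1.natAbs + 2 * (v i).2.natAbs →
      ∃ A ∈ HF R, ∃ d : ℤ, A v = d • e k := by
    intro B i c d hB hi hBv hlt
    obtain ⟨A, hA, d', hA'⟩ := ih (mu (B v)) (by rw [hBv, ← hn]; exact mu_lt' hlt) (B v)
      (by rw [hBv]; exact supp_add hv hi c d) rfl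
    exact ⟨A * B, (HF R).mul_mem hA hB, d', by rw [sp_mul]; exact hA'⟩
  have hmem : ∀ i, v i ≠ 0 → i ∈ R := fun i hi => by
    by_contra h
    exact hi (hv i h)
  by_cases h1 : ∃ i, (v i).2 ≠ 0
  · obtain ⟨i, hi⟩ := h1
    have hiR : i ∈ R := hmem i (fun h => hi (by rw [h]; rfl))
    have eT : ∀ s, T (e i) s v = v + (-(s * (v i).2)) • e i + (0 : ℤ) • f i := by
      intro s
      rw [T_apply, om_e]
      module
    have fT : ∀ s, T (f i) s v = v + (0 : ℤ) • e i + (s * (v i).1) • f i := by
      intro s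
      rw [T_apply, om_f]
      module
    by_cases hx : (v i).1 = 0
    · refine step (Rt i) i _ _ (Rt_HF hiR) hiR (Rt_apply i v) ?_
      rw [hx]
      omega
    · by_cases hxy : (v i).2.natAbs ≤ (v i).1.natAbs
      · rcases (show ((v i).1 + (-(1 * (v i).2))).natAbs < (v i).1.natAbs ∨
            ((v i).1 + (-((-1) * (v i).2))).natAbs < (v i).1.natAbs by omega) with h | h
        · exact step (T (e i) 1) i _ _ (Te_HF hiR 1) hiR (eT 1) (by omega)
        · exact step (T (e i) (-1)) i _ _ (Te_HF hiR (-1)) hiR (eT (-1)) (by omega)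
      · rcases (show ((v i).2 + (1 * (v i).1)).natAbs < (v i).2.natAbs ∨
            ((v i).2 + ((-1) * (v i).1)).natAbs < (v i).2.natAbs by omega) with h | h
        · exact step (T (f i) 1) i _ _ (Tf_HF hiR 1) hiR (fT 1) (by omega)
        · exact step (T (f i) (-1)) i _ _ (Tf_HF hiR (-1)) hiR (fT (-1)) (by omega)
  · push Not at h1
    have key : ∀ i j, i ≠ j → (v i).1 ≠ 0 → (v j).1 ≠ 0 → (v j).1.natAbs ≤ (v i).1.natAbs →
        ∃ A ∈ HF R, ∃ d : ℤ, A v = d • e k := by
      intro i j hij hi hj hle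
      have hiR : i ∈ R := hmem i (fun h => hi (by rw [h]; rfl))
      have hjR : j ∈ R := hmem j (fun h => hj (by rw [h]; rfl))
      have hS : ∀ s, S (e i) (f j) s v = v + (s * (v j).1) • e i + (0 : ℤ) • f i := by
        intro s
        rw [S_apply (om_e_f_ne hij), om_e, om_f, h1 i]
        module
      rcases (show ((v i).1 + (1 * (v j).1)).natAbs < (v i).1.natAbs ∨
            ((v i).1 + ((-1) * (v j).1)).natAbs < (v i).1.natAbs by omega) with h | h
      · exact step _ i _ _ (Sef_HF hiR hjR hij 1) hiR (hS 1) (by omega)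
      · exact step _ i _ _ (Sef_HF hiR hjR hij (-1)) hiR (hS (-1)) (by omega)
    by_cases h2 : ∃ i j, i ≠ j ∧ (v i).1 ≠ 0 ∧ (v j).1 ≠ 0
    · obtain ⟨i, j, hij, hi, hj⟩ := h2
      rcases le_total (v j).1.natAbs (v i).1.natAbs with h | h
      · exact key i j hij hi hj h
      · exact key j i hij.symm hj hi h
    · push Not at h2
      by_cases h3 : ∃ i, (v i).1 ≠ 0
      · obtain ⟨i, hi⟩ := h3
        have hiR : i ∈ R := hmem i (fun h => hi (by rw [h]; rfl))
        have hvi : v = (v i).1 • e i := by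
          funext j
          rw [Pi.smul_apply]
          by_cases hj : j = i
          · rw [hj, e_self]
            ext
            · simp
            · simp [h1 i]
          · rw [e_ne hj, smul_zero]
            have h4 : (v j).1 = 0 := by
              by_contra h5
              exact hi (by
                by_contra h6
                exact h5 (h2 i j (Ne.symm hj) h6))
            exact Prod.ext h4 (h1 j)
        by_cases hik : i = k
        · refine ⟨1, (HF R).one_mem, (v i).1, ?_⟩
          rw [sp_one, ← hik]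
          exact hvi
        · refine ⟨S (e i) (f k) (-1) * S (e k) (f i) 1,
            (HF R).mul_mem (Sef_HF hiR hk hik _) (Sef_HF hk hiR (Ne.symm hik) _), (v i).1, ?_⟩
          have e1 : S (e k) (f i) 1 (e i) = e i + e k := by
            rw [S_apply (om_e_f_ne (Ne.symm hik)), om_e_e, om_e_f]
            module
          have e2 : S (e i) (f k) (-1) (e i + e k) = e k := by
            rw [S_apply (om_e_f_ne hik), om_add_left, om_add_left, om_e_e, om_e_e,
              om_e_f_ne hik, om_e_f]
            module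
          rw [sp_mul]
          conv_lhs => rw [hvi]
          rw [sp_smul, sp_smul, e1, e2]
      · push Not at h3
        refine ⟨1, (HF R).one_mem, 0, ?_⟩
        rw [sp_one, zero_smul]
        funext j
        exact Prod.ext (h3 j) (h1 j)

/-- Primitive vectors. -/
theorem red_prim (R : Finset (Fin g)) {k : Fin g} (hk : k ∈ R) {v u : V g}
    (hv : ∀ i, i ∉ R → v i = 0) (hu : om v u = 1) : ∃ A ∈ HF R, A v = e k := by
  obtain ⟨A, hA, d, hd⟩ := red R hk (mu v) v hv rfl
  have h1 : d * om (e k) (A u) = 1 := by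
    rw [← om_smul_left, ← hd, sp_om, hu]
  rcases Int.isUnit_iff.1 (IsUnit.of_mul_eq_one _ h1) with h | h
  · refine ⟨A, hA, ?_⟩
    rw [hd, h, one_smul]
  · refine ⟨Rt k * Rt k * A, (HF R).mul_mem ((HF R).mul_mem (Rt_HF hk) (Rt_HF hk)) hA, ?_⟩
    rw [sp_mul, sp_mul, hd, h, sp_smul, sp_smul, Rt_e, Rt_f]
    module

/-- (B1): every primitive vector is in the orbit of `e k`. -/
theorem exists_hum (k : Fin g) {v u : V g} (hu : om v u = 1) : ∃ A ∈ Hum g, A (e k) = v := by
  obtain ⟨A, hA, hAv⟩ := red_prim Finset.univ (Finset.mem_univ k) (v := v) (u := u)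
    (fun i hi => absurd (Finset.mem_univ i) hi) hu
  exact ⟨A⁻¹, (Hum g).inv_mem hA.1, by rw [← hAv, sp_inv_apply]⟩

/-- Every vector is in the orbit of a multiple of `e k`. -/
theorem exists_hum' (k : Fin g) (v : V g) : ∃ A ∈ Hum g, ∃ d : ℤ, A (d • e k) = v := by
  obtain ⟨A, hA, d, hAv⟩ := red Finset.univ (Finset.mem_univ k) (mu v) v
    (fun i hi => absurd (Finset.mem_univ i) hi) rfl
  exact ⟨A⁻¹, (Hum g).inv_mem hA.1, d, by rw [← hAv, sp_inv_apply]⟩

/-- A homomorphism killing one transvection of level `m` kills all of them. -/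
theorem kills_all {H : Type*} [Group H] (p : Sp g →* H) {m : ℤ} {k : Fin g}
    (h : p (T (e k) m) = 1) (v : V g) : p (T v m) = 1 := by
  obtain ⟨A, -, d, rfl⟩ := exists_hum' k v
  rw [← T_conj, map_mul, map_mul, T_smul, map_inv]
  have : p (T (e k) (d ^ 2 * m)) = 1 := by
    rw [mul_comm, ← T_zpow, map_zpow, h, one_zpow]
  rw [this, mul_one, mul_inv_cancel]

/-- The products `S (e k) u 1` for `u` orthogonal to the handle `k`. -/
lemma S_vec_HF (R : Finset (Fin g)) {k : Fin g} (hk : k ∈ R) (J : Finset (Fin g)) :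
    J ⊆ R → k ∉ J → ∀ u : V g, S (e k) (∑ i ∈ J, ((u i).1 • e i + (u i).2 • f i)) 1 ∈ HF R := by
  classical
  have hS1 : ∀ (i : Fin g), i ∈ R → k ≠ i → ∀ c : ℤ, S (e k) (c • e i) 1 ∈ HF R := by
    intro i hi hki c
    have h0 : om (e k) (c • e i) = 0 := by rw [om_smul_right, om_e_e, mul_zero]
    have : S (e k) (c • e i) 1 = S (e k) (e i) c := by
      refine sp_ext fun x => ?_
      rw [S_apply h0, S_apply (om_e_e k i), om_smul_right]
      module
    rw [this]
    exact See_HF hk hi hki c
  have hS2 : ∀ (i : Fin g), i ∈ R → k ≠ i → ∀ c : ℤ, S (e k) (c • f i) 1 ∈ HF R := by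
    intro i hi hki c
    have h0 : om (e k) (c • f i) = 0 := by rw [om_smul_right, om_e_f_ne hki, mul_zero]
    have : S (e k) (c • f i) 1 = S (e k) (f i) c := by
      refine sp_ext fun x => ?_
      rw [S_apply h0, S_apply (om_e_f_ne hki), om_smul_right]
      module
    rw [this]
    exact Sef_HF hk hi hki c
  induction J using Finset.induction_on with
  | empty =>
    intro _ _ u
    rw [Finset.sum_empty]
    have : S (e k) 0 1 = (1 : Sp g) := by
      refine sp_ext fun x => ?_
      rw [S_apply (om_zero_right _), om_zero_right, sp_one]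
      module
    rw [this]
    exact (HF R).one_mem
  | insert i J hi ih =>
    intro hJ hkJ u
    rw [Finset.sum_insert hi]
    have hiR : i ∈ R := hJ (Finset.mem_insert_self i J)
    have hki : k ≠ i := fun h => hkJ (h ▸ Finset.mem_insert_self k J)
    have hkJ' : k ∉ J := fun h => hkJ (Finset.mem_insert_of_mem h)
    have hJ' : J ⊆ R := fun x hx => hJ (Finset.mem_insert_of_mem hx)
    have h1 : om (e k) ((u i).1 • e i) = 0 := by rw [om_smul_right, om_e_e, mul_zero]
    have h2 : om (e k) ((u i).2 • f i) = 0 := by rw [om_smul_right, om_e_f_ne hki, mul_zero]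
    have h3 : om (e k) ((u i).1 • e i + (u i).2 • f i) = 0 := by
      rw [om_add_right, h1, h2, add_zero]
    have h4 : om (e k) (∑ j ∈ J, ((u j).1 • e j + (u j).2 • f j)) = 0 := by
      rw [om_e', Finset.sum_apply]
      rw [Finset.sum_eq_zero]
      · rfl
      · intro j hj
        have : k ≠ j := fun h => hkJ' (h ▸ hj)
        rw [Pi.add_apply, Pi.smul_apply, Pi.smul_apply, e_ne this, f_ne this]
        simp
    rw [S_add_right h3 h4, S_add_right h1 h2]
    have m1 := hS1 i hiR hki (u i).1
    have m2 := hS2 i hiR hki (u i).2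
    have m3 := ih hJ' hkJ' u
    generalize (1 ^ 2 * om ((u i).1 • e i + (u i).2 • f i)
      (∑ j ∈ J, ((u j).1 • e j + (u j).2 • f j)) : ℤ) = c1
    generalize (1 ^ 2 * om ((u i).1 • (e i : V g)) ((u i).2 • f i) : ℤ) = c2
    exact mul_mem (mul_mem (mul_mem (mul_mem m1 m2) (Te_HF hk c2)) m3) (Te_HF hk c1)

/-- (B2), relative form. -/
theorem mem_of_fix (R : Finset (Fin g)) : ∀ A : Sp g,
    (∀ i, i ∉ R → A (e i) = e i ∧ A (f i) = f i) → A ∈ Hum g := by
  classical
  induction R using Finset.induction_on with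
  | empty =>
    intro A hA
    have : A = 1 := by
      refine sp_ext fun x => ?_
      rw [sp_one]
      have h1 : A (∑ i, ((x i).1 • e i + (x i).2 • f i)) =
          ∑ i, A ((x i).1 • e i + (x i).2 • f i) := map_sum A.1 _ _
      have h2 : ∀ i, A ((x i).1 • e i + (x i).2 • f i) = (x i).1 • e i + (x i).2 • f i := by
        intro i
        rw [sp_add, sp_smul, sp_smul, (hA i (Finset.notMem_empty i)).1,
          (hA i (Finset.notMem_empty i)).2]
      rw [← expand x, Finset.sum_congr rfl (fun i _ => h2 i), ← expand x] at h1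
      exact h1
    rw [this]
    exact (Hum g).one_mem
  | insert k R hk ih =>
    intro A hA
    -- the image of e k
    have hsupp : ∀ i, i ∉ insert k R → A (e k) i = 0 := by
      intro i hi
      have hik : k ≠ i := fun h => hi (h ▸ Finset.mem_insert_self k R)
      have h1 : om (A (e k)) (A (e i)) = 0 := by rw [sp_om, om_e_e]
      have h2 : om (A (e k)) (A (f i)) = 0 := by rw [sp_om, om_e_f_ne hik]
      rw [(hA i hi).1, om_e] at h1
      rw [(hA i hi).2, om_f] at h2
      exact Prod.ext h2 (by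
        change (A (e k) i).2 = 0
        omega)
    obtain ⟨B, hB, hBe⟩ := red_prim (insert k R) (Finset.mem_insert_self k R)
      (v := A (e k)) (u := A (f k)) hsupp (by rw [sp_om, om_e_f])
    -- replace A by B * A
    set A1 := B * A with hA1
    have hA1e : A1 (e k) = e k := by rw [hA1, sp_mul, hBe]
    have hA1fix : ∀ i, i ∉ insert k R → A1 (e i) = e i ∧ A1 (f i) = f i := by
      intro i hi
      rw [hA1, sp_mul, sp_mul, (hA i hi).1, (hA i hi).2]
      exact hB.2 i hi
    set w := A1 (f k) with hw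
    have hwk : (w k).2 = 1 := by
      have := sp_om A1 (e k) (f k)
      rw [hA1e, om_e_f, om_e'] at this
      exact this
    have hwsupp : ∀ i, i ∉ insert k R → w i = 0 := by
      intro i hi
      have hik : k ≠ i := fun h => hi (h ▸ Finset.mem_insert_self k R)
      have h1 : om (A1 (f k)) (A1 (e i)) = 0 := by rw [sp_om, om_f_e_ne hik]
      have h2 : om (A1 (f k)) (A1 (f i)) = 0 := by rw [sp_om, om_f_f]
      rw [(hA1fix i hi).1, om_e] at h1
      rw [(hA1fix i hi).2, om_f] at h2
      exact Prod.ext h2 (by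
        change (A1 (f k) i).2 = 0
        omega)
    -- w = f k + s e k + u
    set u : V g := ∑ i ∈ R, ((w i).1 • e i + (w i).2 • f i) with hu
    have hwu : w = f k + (w k).1 • e k + u := by
      conv_lhs => rw [expand w]
      have h1 : ∑ i, ((w i).1 • e i + (w i).2 • f i) =
          ∑ i ∈ insert k R, ((w i).1 • e i + (w i).2 • f i) := by
        symm
        refine Finset.sum_subset (Finset.subset_univ _) ?_
        intro i _ hi
        rw [hwsupp i hi]
        simp
      rw [h1, Finset.sum_insert hk, hwk]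
      module
    have heu : om (e k) u = 0 := by
      rw [om_e', hu, Finset.sum_apply, Finset.sum_eq_zero]
      · rfl
      · intro j hj
        have : k ≠ j := fun h => hk (h ▸ hj)
        rw [Pi.add_apply, Pi.smul_apply, Pi.smul_apply, e_ne this, f_ne this]
        simp
    have hfu : om (f k) u = 0 := by
      rw [om_f', hu, Finset.sum_apply, Finset.sum_eq_zero]
      · rfl
      · intro j hj
        have : k ≠ j := fun h => hk (h ▸ hj)
        rw [Pi.add_apply, Pi.smul_apply, Pi.smul_apply, e_ne this, f_ne this]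
        simp
    -- the clearing elements
    have hSu : S (e k) u 1 ∈ HF (insert k R) :=
      S_vec_HF (insert k R) (Finset.mem_insert_self k R) R (Finset.subset_insert k R) hk w
    have hfk : S (e k) u 1 w = f k + (w k).1 • e k := by
      conv_lhs => rw [hwu]
      rw [S_apply heu]
      simp only [om_add_left, om_smul_left, om_f_e, om_self, heu, hfu]
      have : om u (e k) = 0 := by rw [om_swap, heu]; rfl
      rw [this]
      module
    have hSe : S (e k) u 1 (e k) = e k := S_fix heu (om_self _) heu 1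
    set C := T (e k) (w k).1 * S (e k) u 1 with hC
    have hCmem : C ∈ HF (insert k R) :=
      (HF _).mul_mem (Te_HF (Finset.mem_insert_self k R) _) hSu
    have hCe : C (e k) = e k := by
      rw [hC, sp_mul, hSe, T_fix (om_self _)]
    have hCw : C w = f k := by
      rw [hC, sp_mul, hfk, T_apply, om_add_left, om_smul_left, om_self, om_f_e]
      module
    have hfin : C * A1 ∈ Hum g := by
      refine ih _ fun i hi => ?_
      by_cases hik : i = k
      · rw [hik]
        change C (A1 (e k)) = e k ∧ C (A1 (f k)) = f k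
        rw [hA1e, ← hw]
        exact ⟨hCe, hCw⟩
      · have hi' : i ∉ insert k R := by
          intro h
          rcases Finset.mem_insert.1 h with h | h
          · exact hik h
          · exact hi h
        change C (A1 (e i)) = e i ∧ C (A1 (f i)) = f i
        rw [(hA1fix i hi').1, (hA1fix i hi').2]
        exact hCmem.2 i hi'
    rw [hA1] at hfin
    have h1 := (Hum g).mul_mem ((Hum g).inv_mem hCmem.1) hfin
    rw [inv_mul_cancel_left] at h1
    have h2 := (Hum g).mul_mem ((Hum g).inv_mem hB.1) h1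
    rwa [inv_mul_cancel_left] at h2

/-- (B2): Sp(2g, Z) is generated by the standard transvections. -/
theorem hum_eq_top : Hum g = ⊤ := by
  rw [eq_top_iff]
  intro A _
  exact mem_of_fix Finset.univ A fun i hi => absurd (Finset.mem_univ i) hi

end Pool.Agent.H.MP_59b15d_al.SP
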