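/-
The action of the mapping class group on the first homology V g = Z^{2g}.
-/
import Pool.Agent.H.MP_59b15d_al.h76r.Sd
import Pool.Agent.H.MP_59b15d_al.h11c.Red

set_option autoImplicit false

namespace Pool.Agent.H.MP_59b15d_al.SP

open Pool.MP_59b15d_al.H24T Pool.MP_59b15d_al.H76R

variable {g : ℕ} {G : Type*} [Group G] {a b : Fin g → G}

theorem exists_abm (h : IsSurf a b) : ∃ p : G →* Multiplicative (V g),
    (∀ i, p (a i) = Multiplicative.ofAdd (e i)) ∧
      ∀ i, p (b i) = Multiplicative.ofAdd (f i) := by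
  refine h.lift _ _ ?_
  unfold relWord
  refine List.prod_eq_one ?_
  intro x hx
  rw [List.mem_ofFn] at hx
  obtain ⟨i, rfl⟩ := hx
  rw [mul_comm (Multiplicative.ofAdd (e i)) (Multiplicative.ofAdd (f i)),
    mul_inv_cancel_right, mul_inv_cancel]

/-- The class of an element in the first homology. -/
noncomputable def cls (h : IsSurf a b) (x : G) : V g :=
  Multiplicative.toAdd ((exists_abm h).choose x)

section

variable (h : IsSurf a b)

lemma cls_a (i : Fin g) : cls h (a i) = e i := by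
  rw [cls, (exists_abm h).choose_spec.1]; rfl

lemma cls_b (i : Fin g) : cls h (b i) = f i := by
  rw [cls, (exists_abm h).choose_spec.2]; rfl

lemma cls_mul (x y : G) : cls h (x * y) = cls h x + cls h y := by
  rw [cls, map_mul]; rfl

lemma cls_one : cls h (1 : G) = 0 := by
  rw [cls, map_one]; rfl

lemma cls_inv (x : G) : cls h x⁻¹ = -cls h x := by
  rw [cls, map_inv]; rfl

lemma cls_surj (v : V g) : ∃ x : G, cls h x = v := by
  let A : AddSubgroup (V g) :=
    { carrier := {v | ∃ x : G, cls h x = v}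
      add_mem' := by
        rintro _ _ ⟨x, rfl⟩ ⟨y, rfl⟩
        exact ⟨x * y, cls_mul h x y⟩
      zero_mem' := ⟨1, cls_one h⟩
      neg_mem' := by
        rintro _ ⟨x, rfl⟩
        exact ⟨x⁻¹, cls_inv h x⟩ }
  have h1 : v ∈ A := by
    rw [expand v]
    refine A.sum_mem fun i _ => A.add_mem (A.zsmul_mem ⟨a i, cls_a h i⟩ _)
      (A.zsmul_mem ⟨b i, cls_b h i⟩ _)
  exact h1

/-- The induced linear map. -/
noncomputable def Lm (φ : MulAut G) : V g →ₗ[ℤ] V g where
  toFun x := ∑ i, ((x i).1 • cls h (φ (a i)) + (x i).2 • cls h (φ (b i)))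
  map_add' x y := by
    rw [← Finset.sum_add_distrib]
    refine Finset.sum_congr rfl fun i _ => ?_
    rw [Pi.add_apply, Prod.fst_add, Prod.snd_add]
    module
  map_smul' k x := by
    rw [Finset.smul_sum]
    refine Finset.sum_congr rfl fun i _ => ?_
    rw [Pi.smul_apply, Prod.smul_fst, Prod.smul_snd, RingHom.id_apply]
    simp only [smul_eq_mul]
    module

lemma Lm_e (φ : MulAut G) (i : Fin g) : Lm h φ (e i) = cls h (φ (a i)) := by
  change ∑ j, (((e i : V g) j).1 • cls h (φ (a j)) + ((e i : V g) j).2 • cls h (φ (b j))) = _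
  rw [Finset.sum_eq_single i]
  · rw [e_self]; simp
  · intro j _ hj
    rw [e_ne hj]; simp
  · simp

lemma Lm_f (φ : MulAut G) (i : Fin g) : Lm h φ (f i) = cls h (φ (b i)) := by
  change ∑ j, (((f i : V g) j).1 • cls h (φ (a j)) + ((f i : V g) j).2 • cls h (φ (b j))) = _
  rw [Finset.sum_eq_single i]
  · rw [f_self]; simp
  · intro j _ hj
    rw [f_ne hj]; simp
  · simp

lemma Lm_cls (φ : MulAut G) (x : G) : Lm h φ (cls h x) = cls h (φ x) := by
  let F : G →* Multiplicative (V g) :=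
    { toFun := fun x => Multiplicative.ofAdd (Lm h φ (cls h x))
      map_one' := by rw [cls_one, map_zero]; rfl
      map_mul' := fun x y => by rw [cls_mul, map_add]; rfl }
  let F' : G →* Multiplicative (V g) :=
    { toFun := fun x => Multiplicative.ofAdd (cls h (φ x))
      map_one' := by rw [map_one, cls_one]; rfl
      map_mul' := fun x y => by rw [map_mul, cls_mul]; rfl }
  have h1 : F = F' := by
    refine hom_ext h ?_ ?_
    · intro i
      change Multiplicative.ofAdd (Lm h φ (cls h (a i))) = Multiplicative.ofAdd (cls h (φ (a i)))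
      rw [cls_a, Lm_e]
    · intro i
      change Multiplicative.ofAdd (Lm h φ (cls h (b i))) = Multiplicative.ofAdd (cls h (φ (b i)))
      rw [cls_b, Lm_f]
  have h2 := DFunLike.congr_fun h1 x
  exact Multiplicative.ofAdd.injective h2

lemma Lm_mul (φ ψ : MulAut G) (v : V g) : Lm h (φ * ψ) v = Lm h φ (Lm h ψ v) := by
  obtain ⟨x, rfl⟩ := cls_surj h v
  rw [Lm_cls, Lm_cls, Lm_cls]; rfl

lemma Lm_one (v : V g) : Lm h (1 : MulAut G) v = v := by
  obtain ⟨x, rfl⟩ := cls_surj h v
  rw [Lm_cls]; rfl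

/-- The action on the first homology. -/
noncomputable def H1 : MulAut G →* (V g ≃ₗ[ℤ] V g) where
  toFun φ := LinearEquiv.ofLinearMap (Lm h φ) (Lm h φ⁻¹)
    (LinearMap.ext fun v => by
      rw [LinearMap.comp_apply, ← Lm_mul, mul_inv_cancel, Lm_one]; rfl)
    (LinearMap.ext fun v => by
      rw [LinearMap.comp_apply, ← Lm_mul, inv_mul_cancel, Lm_one]; rfl)
  map_one' := by
    refine LinearEquiv.ext fun v => ?_
    exact Lm_one h v
  map_mul' φ ψ := by
    refine LinearEquiv.ext fun v => ?_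
    exact Lm_mul h φ ψ v

lemma H1_cls (φ : MulAut G) (x : G) : H1 h φ (cls h x) = cls h (φ x) := Lm_cls h φ x

lemma H1_e (φ : MulAut G) (i : Fin g) : H1 h φ (e i) = cls h (φ (a i)) := Lm_e h φ i

lemma H1_f (φ : MulAut G) (i : Fin g) : H1 h φ (f i) = cls h (φ (b i)) := Lm_f h φ i

lemma H1_conj (x : G) : H1 h (MulAut.conj x) = 1 := by
  refine LinearEquiv.ext fun v => ?_
  obtain ⟨y, rfl⟩ := cls_surj h v
  rw [H1_cls, MulAut.conj_apply, cls_mul, cls_mul, cls_inv]
  change _ = cls h y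
  abel

lemma lin_ext {A B : V g ≃ₗ[ℤ] V g} (h1 : ∀ i, A (e i) = B (e i)) (h2 : ∀ i, A (f i) = B (f i)) :
    A = B := by
  refine LinearEquiv.ext fun v => ?_
  rw [expand v, map_sum, map_sum]
  refine Finset.sum_congr rfl fun i _ => ?_
  rw [map_add, map_add, map_smul, map_smul, map_smul, map_smul, h1, h2]

lemma H1_A {i : Fin g} {τ : MulAut G} (hT : IsA a b i τ) : H1 h τ = (T (e i) (-1)).1 := by
  obtain ⟨h1, h2, h3⟩ := hT
  refine lin_ext (fun k => ?_) (fun k => ?_)
  · rw [H1_e, h2, cls_a]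
    exact (T_fix (om_e_e k i) (-1)).symm
  · rw [H1_f]
    by_cases hk : k = i
    · rw [hk, h1, cls_mul, cls_a, cls_b]
      change _ = T (e i) (-1) (f i)
      rw [T_apply, om_f_e]
      module
    · rw [h3 k hk, cls_b]
      exact (T_fix (om_f_e_ne hk) (-1)).symm

lemma H1_B {i : Fin g} {τ : MulAut G} (hT : IsB a b i τ) : H1 h τ = (T (f i) 1).1 := by
  obtain ⟨h1, h2, h3⟩ := hT
  refine lin_ext (fun k => ?_) (fun k => ?_)
  · rw [H1_e]
    by_cases hk : k = i
    · rw [hk, h1, cls_mul, cls_a, cls_b]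
      change _ = T (f i) 1 (e i)
      rw [T_apply, om_e_f]
      module
    · rw [h3 k hk, cls_a]
      exact (T_fix (om_e_f_ne hk) 1).symm
  · rw [H1_f, h2, cls_b]
    exact (T_fix (om_f_f k i) 1).symm

lemma H1_C {i j : Fin g} (hij : i ≠ j) {τ : MulAut G} (hT : IsC a b i j τ) :
    H1 h τ = (T (f i - e j) 1).1 := by
  obtain ⟨u, hu, h1, h2, h3, h4, h5⟩ := hT
  have hcu : cls h u = f i - e j := by
    rw [hu, cls_mul, cls_inv, cls_a, cls_b]
    abel
  refine lin_ext (fun k => ?_) (fun k => ?_)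
  · rw [H1_e]
    change _ = T (f i - e j) 1 (e k)
    rw [T_apply, om_sub_right, om_e_e]
    by_cases hk : k = i
    · rw [hk, h1, cls_mul, cls_a, hcu, om_e_f]
      module
    · rw [om_e_f_ne hk]
      by_cases hkj : k = j
      · rw [hkj, h3, cls_mul, cls_mul, cls_inv, hcu, cls_a]
        module
      · rw [(h5 k hk hkj).1, cls_a]
        module
  · rw [H1_f]
    change _ = T (f i - e j) 1 (f k)
    rw [T_apply, om_sub_right, om_f_f]
    by_cases hk : k = j
    · rw [hk, h4, cls_mul, cls_b, hcu, om_f_e]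
      module
    · rw [om_f_e_ne hk]
      by_cases hki : k = i
      · rw [hki, h2, cls_mul, cls_mul, cls_mul, cls_inv, hcu, cls_a]
        module
      · rw [(h5 k hki hk).2, cls_b]
        module

theorem H1_mem_Sp {φ : MulAut G} (hφ : φ ∈ MCG a b) : H1 h φ ∈ Sp g := by
  have hle : MCG a b ≤ (Sp g).comap (H1 h) := by
    rw [MCG, Subgroup.closure_le]
    rintro τ (⟨x, rfl⟩ | (⟨i, -, hT⟩ | ⟨i, -, hT⟩ | ⟨i, j, hij, -, hT⟩))
    · change H1 h (MulAut.conj x) ∈ Sp g
      rw [H1_conj]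
      exact (Sp g).one_mem
    · change H1 h τ ∈ Sp g
      rw [H1_A h hT]
      exact (T (e i) (-1)).2
    · change H1 h τ ∈ Sp g
      rw [H1_B h hT]
      exact (T (f i) 1).2
    · change H1 h τ ∈ Sp g
      have hne : i ≠ j := by
        rintro rfl
        omega
      rw [H1_C h hne hT]
      exact (T (f i - e j) 1).2
  exact hle hφ

/-- The homomorphism from the mapping class group to the symplectic group. -/
noncomputable def spm : MCG a b →* Sp g :=
  ((H1 h).comp (MCG a b).subtype).codRestrict (Sp g) (fun x => H1_mem_Sp h x.2)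

lemma spm_val (φ : MCG a b) : (spm h φ).1 = H1 h φ.1 := rfl

lemma spm_cls (φ : MCG a b) (x : G) : spm h φ (cls h x) = cls h (φ.1 x) := H1_cls h φ.1 x

lemma spm_A {i : Fin g} {φ : MCG a b} (hT : IsA a b i φ.1) : spm h φ = T (e i) (-1) :=
  Subtype.ext (H1_A h hT)

lemma spm_B {i : Fin g} {φ : MCG a b} (hT : IsB a b i φ.1) : spm h φ = T (f i) 1 :=
  Subtype.ext (H1_B h hT)

lemma spm_C {i j : Fin g} (hij : i ≠ j) {φ : MCG a b} (hT : IsC a b i j φ.1) :
    spm h φ = T (f i - e j) 1 := Subtype.ext (H1_C h hij hT)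

lemma spm_conj {φ : MCG a b} {x : G} (hx : φ.1 = MulAut.conj x) : spm h φ = 1 :=
  Subtype.ext (by rw [spm_val, hx, H1_conj]; rfl)

/-- The mapping class group maps onto the symplectic group. -/
theorem spm_surj : Function.Surjective (spm h) := by
  rw [← MonoidHom.range_eq_top, eq_top_iff, ← hum_eq_top, Hum, Subgroup.closure_le]
  rintro A (⟨i, rfl⟩ | ⟨i, rfl⟩ | ⟨i, j, hij, rfl⟩)
  · have hA : IsA a b i (TA h i) := (isA_iff h i _).2 rfl
    have hm : TA h i ∈ MCG a b :=
      Subgroup.subset_closure (Or.inr (Or.inl ⟨i, trivial, hA⟩))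
    refine ⟨(⟨TA h i, hm⟩ : MCG a b)⁻¹, ?_⟩
    rw [map_inv, spm_A h (φ := ⟨TA h i, hm⟩) hA, T_inv, neg_neg]
  · have hB : IsB a b i (TB h i) := (isB_iff h i _).2 rfl
    have hm : TB h i ∈ MCG a b :=
      Subgroup.subset_closure (Or.inr (Or.inr (Or.inl ⟨i, trivial, hB⟩)))
    exact ⟨⟨TB h i, hm⟩, spm_B h hB⟩
  · have hC : IsC a b i j (TC h i j hij) := (isC_iff h i j hij _).2 rfl
    have hm : TC h i j hij ∈ MCG a b :=
      Subgroup.subset_closure (Or.inr (Or.inr (Or.inr ⟨i, j, hij, trivial, hC⟩)))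
    have hne : i ≠ j := by
      rintro rfl
      omega
    exact ⟨⟨TC h i j hij, hm⟩, spm_C h hne hC⟩

end

end Pool.Agent.H.MP_59b15d_al.SP
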