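/-
Relative version of Red: a subgroup of Sp(2g, Z) containing the elementary elements of a set
R of handles contains all symplectic maps supported on R; intervals of handles.
-/
import Pool.Agent.H.MP_59b15d_al.h11c.Red

set_option autoImplicit false

namespace Pool.Agent.H.MP_59b15d_al.SP

variable {g : ℕ}

/-- `H` contains the elementary elements of the handles in `R`. -/
structure EGen (H : Subgroup (Sp g)) (R : Finset (Fin g)) : Prop where
  he : ∀ i ∈ R, ∀ s : ℤ, T (e i) s ∈ H
  hf : ∀ i ∈ R, ∀ s : ℤ, T (f i) s ∈ H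
  hS : ∀ i ∈ R, ∀ j ∈ R, i ≠ j → ∀ s : ℤ, S (e i) (f j) s ∈ H

lemma EGen.mono {H : Subgroup (Sp g)} {R R' : Finset (Fin g)} (h : EGen H R) (hR : R' ⊆ R) :
    EGen H R' :=
  ⟨fun i hi => h.he i (hR hi), fun i hi => h.hf i (hR hi),
    fun i hi j hj => h.hS i (hR hi) j (hR hj)⟩

lemma EGen.rt {H : Subgroup (Sp g)} {R : Finset (Fin g)} (h : EGen H R) {i : Fin g}
    (hi : i ∈ R) : Rt i ∈ H :=
  H.mul_mem (H.mul_mem (h.he i hi 1) (h.hf i hi 1)) (h.he i hi 1)

lemma EGen.See {H : Subgroup (Sp g)} {R : Finset (Fin g)} (h : EGen H R) {i j : Fin g}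
    (hi : i ∈ R) (hj : j ∈ R) (hij : i ≠ j) (s : ℤ) : S (e i) (e j) s ∈ H := by
  have h1 := S_conj_mem (h.rt hj) (h.hS i hi j hj hij (-s))
  rw [Rt_e_ne hij.symm, Rt_f, S_neg_right (om_e_e i j), neg_neg] at h1
  exact h1

/-- elements of `H` fixing the handles outside `R` -/
def HR (H : Subgroup (Sp g)) (R : Finset (Fin g)) : Subgroup (Sp g) where
  carrier := {A | A ∈ H ∧ ∀ i, i ∉ R → A (e i) = e i ∧ A (f i) = f i}
  mul_mem' := by
    rintro A B ⟨hA, hA'⟩ ⟨hB, hB'⟩
    refine ⟨H.mul_mem hA hB, fun i hi => ?_⟩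
    rw [sp_mul, sp_mul, (hB' i hi).1, (hB' i hi).2]
    exact hA' i hi
  one_mem' := ⟨H.one_mem, fun i _ => ⟨rfl, rfl⟩⟩
  inv_mem' := by
    rintro A ⟨hA, hA'⟩
    refine ⟨H.inv_mem hA, fun i hi => ?_⟩
    have h1 := sp_inv_apply A (e i)
    have h2 := sp_inv_apply A (f i)
    rw [(hA' i hi).1] at h1
    rw [(hA' i hi).2] at h2
    exact ⟨h1, h2⟩

lemma EGen.Te {H : Subgroup (Sp g)} {R : Finset (Fin g)} (h : EGen H R) {i : Fin g} (hi : i ∈ R)
    (s : ℤ) : T (e i) s ∈ HR H R := by
  refine ⟨h.he i hi s, fun j hj => ?_⟩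
  have hne : j ≠ i := by rintro rfl; exact hj hi
  exact ⟨T_fix (om_e_e j i) s, T_fix (om_f_e_ne hne) s⟩

lemma EGen.Tf {H : Subgroup (Sp g)} {R : Finset (Fin g)} (h : EGen H R) {i : Fin g} (hi : i ∈ R)
    (s : ℤ) : T (f i) s ∈ HR H R := by
  refine ⟨h.hf i hi s, fun j hj => ?_⟩
  have hne : j ≠ i := by rintro rfl; exact hj hi
  exact ⟨T_fix (om_e_f_ne hne) s, T_fix (om_f_f j i) s⟩

lemma EGen.Rt' {H : Subgroup (Sp g)} {R : Finset (Fin g)} (h : EGen H R) {i : Fin g}
    (hi : i ∈ R) : Rt i ∈ HR H R :=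
  (HR H R).mul_mem ((HR H R).mul_mem (h.Te hi 1) (h.Tf hi 1)) (h.Te hi 1)

lemma EGen.Sef' {H : Subgroup (Sp g)} {R : Finset (Fin g)} (h : EGen H R) {i j : Fin g}
    (hi : i ∈ R) (hj : j ∈ R) (hij : i ≠ j) (s : ℤ) : S (e i) (f j) s ∈ HR H R := by
  refine ⟨h.hS i hi j hj hij s, fun k hk => ?_⟩
  have h1 : k ≠ i := by rintro rfl; exact hk hi
  have h2 : k ≠ j := by rintro rfl; exact hk hj
  exact ⟨S_fix (om_e_f_ne hij) (om_e_e k i) (om_e_f_ne h2) s,
    S_fix (om_e_f_ne hij) (om_f_e_ne h1) (om_f_f k j) s⟩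

lemma EGen.See' {H : Subgroup (Sp g)} {R : Finset (Fin g)} (h : EGen H R) {i j : Fin g}
    (hi : i ∈ R) (hj : j ∈ R) (hij : i ≠ j) (s : ℤ) : S (e i) (e j) s ∈ HR H R := by
  refine ⟨h.See hi hj hij s, fun k hk => ?_⟩
  have h1 : k ≠ i := by rintro rfl; exact hk hi
  have h2 : k ≠ j := by rintro rfl; exact hk hj
  exact ⟨S_fix (om_e_e i j) (om_e_e k i) (om_e_e k j) s,
    S_fix (om_e_e i j) (om_f_e_ne h1) (om_f_e_ne h2) s⟩

/-- Reduction of a vector supported on `R` to a multiple of `e k` inside `H`. -/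
theorem EGen.red {H : Subgroup (Sp g)} {R : Finset (Fin g)} (hH : EGen H R) {k : Fin g}
    (hk : k ∈ R) : ∀ n : ℕ, ∀ v : V g,
    (∀ i, i ∉ R → v i = 0) → mu v = n → ∃ A ∈ HR H R, ∃ d : ℤ, A v = d • e k := by
  intro n
  induction n using Nat.strong_induction_on with
  | _ n ih =>
  intro v hv hn
  -- the step
  have step : ∀ (B : Sp g) (i : Fin g) (c d : ℤ), B ∈ HR H R → i ∈ R →
      B v = v + c • e i + d • f i →
      ((v i).1 + c).natAbs + 2 * ((v i).2 + d).natAbs < (v i).1.natAbs + 2 * (v i).2.natAbs →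
      ∃ A ∈ HR H R, ∃ d : ℤ, A v = d • e k := by
    intro B i c d hB hi hBv hlt
    obtain ⟨A, hA, d', hA'⟩ := ih (mu (B v)) (by rw [hBv, ← hn]; exact mu_lt' hlt) (B v)
      (by rw [hBv]; exact supp_add hv hi c d) rfl
    exact ⟨A * B, (HR H R).mul_mem hA hB, d', by rw [sp_mul]; exact hA'⟩
  have hmem : ∀ i, v i ≠ 0 → i ∈ R := fun i hi => by
    by_contra h
    exact hi (hv i h)
  by_cases h1 : ∃ i, (v i).2 ≠ 0
  · obtain ⟨i, hi⟩ := h1
    have hiR : i ∈ R := hmem i (fun h => hi (by rw [h]; rfl))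
    have eT : ∀ s, T (e i) s v = v + (-(s * (v i).2)) • e i + (0 : ℤ) • f i := by
      intro s
      rw [T_apply, om_e]
      module
    have fT : ∀ s, T (f i) s v = v + (0 : ℤ) • e i + (s * (v i).1) • f i := by
      intro s
      rw [T_apply, om_f]
      module
    by_cases hx : (v i).1 = 0
    · refine step (Rt i) i _ _ (hH.Rt' hiR) hiR (Rt_apply i v) ?_
      rw [hx]
      omega
    · by_cases hxy : (v i).2.natAbs ≤ (v i).1.natAbs
      · rcases (show ((v i).1 + (-(1 * (v i).2))).natAbs < (v i).1.natAbs ∨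
            ((v i).1 + (-((-1) * (v i).2))).natAbs < (v i).1.natAbs by omega) with h | h
        · exact step (T (e i) 1) i _ _ (hH.Te hiR 1) hiR (eT 1) (by omega)
        · exact step (T (e i) (-1)) i _ _ (hH.Te hiR (-1)) hiR (eT (-1)) (by omega)
      · rcases (show ((v i).2 + (1 * (v i).1)).natAbs < (v i).2.natAbs ∨
            ((v i).2 + ((-1) * (v i).1)).natAbs < (v i).2.natAbs by omega) with h | h
        · exact step (T (f i) 1) i _ _ (hH.Tf hiR 1) hiR (fT 1) (by omega)
        · exact step (T (f i) (-1)) i _ _ (hH.Tf hiR (-1)) hiR (fT (-1)) (by omega)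
  · push Not at h1
    have key : ∀ i j, i ≠ j → (v i).1 ≠ 0 → (v j).1 ≠ 0 → (v j).1.natAbs ≤ (v i).1.natAbs →
        ∃ A ∈ HR H R, ∃ d : ℤ, A v = d • e k := by
      intro i j hij hi hj hle
      have hiR : i ∈ R := hmem i (fun h => hi (by rw [h]; rfl))
      have hjR : j ∈ R := hmem j (fun h => hj (by rw [h]; rfl))
      have hS : ∀ s, S (e i) (f j) s v = v + (s * (v j).1) • e i + (0 : ℤ) • f i := by
        intro s
        rw [S_apply (om_e_f_ne hij), om_e, om_f, h1 i]
        module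
      rcases (show ((v i).1 + (1 * (v j).1)).natAbs < (v i).1.natAbs ∨
            ((v i).1 + ((-1) * (v j).1)).natAbs < (v i).1.natAbs by omega) with h | h
      · exact step _ i _ _ (hH.Sef' hiR hjR hij 1) hiR (hS 1) (by omega)
      · exact step _ i _ _ (hH.Sef' hiR hjR hij (-1)) hiR (hS (-1)) (by omega)
    by_cases h2 : ∃ i j, i ≠ j ∧ (v i).1 ≠ 0 ∧ (v j).1 ≠ 0
    · obtain ⟨i, j, hij, hi, hj⟩ := h2
      rcases le_total (v j).1.natAbs (v i).1.natAbs with h | h
      · exact key i j hij hi hj h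
      · exact key j i hij.symm hj hi h
    · push Not at h2
      by_cases h3 : ∃ i, (v i).1 ≠ 0
      · obtain ⟨i, hi⟩ := h3
        have hiR : i ∈ R := hmem i (fun h => hi (by rw [h]; rfl))
        have hvi : v = (v i).1 • e i := by
          funext j
          rw [Pi.smul_apply]
          by_cases hj : j = i
          · rw [hj, e_self]
            ext
            · simp
            · simp [h1 i]
          · rw [e_ne hj, smul_zero]
            have h4 : (v j).1 = 0 := by
              by_contra h5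
              exact hi (by
                by_contra h6
                exact h5 (h2 i j (Ne.symm hj) h6))
            exact Prod.ext h4 (h1 j)
        by_cases hik : i = k
        · refine ⟨1, (HR H R).one_mem, (v i).1, ?_⟩
          rw [sp_one, ← hik]
          exact hvi
        · refine ⟨S (e i) (f k) (-1) * S (e k) (f i) 1,
            (HR H R).mul_mem (hH.Sef' hiR hk hik _) (hH.Sef' hk hiR (Ne.symm hik) _),
            (v i).1, ?_⟩
          have e1 : S (e k) (f i) 1 (e i) = e i + e k := by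
            rw [S_apply (om_e_f_ne (Ne.symm hik)), om_e_e, om_e_f]
            module
          have e2 : S (e i) (f k) (-1) (e i + e k) = e k := by
            rw [S_apply (om_e_f_ne hik), om_add_left, om_add_left, om_e_e, om_e_e,
              om_e_f_ne hik, om_e_f]
            module
          rw [sp_mul]
          conv_lhs => rw [hvi]
          rw [sp_smul, sp_smul, e1, e2]
      · push Not at h3
        refine ⟨1, (HR H R).one_mem, 0, ?_⟩
        rw [sp_one, zero_smul]
        funext j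
        exact Prod.ext (h3 j) (h1 j)

/-- Primitive vectors. -/
theorem EGen.red_prim {H : Subgroup (Sp g)} {R : Finset (Fin g)} (hH : EGen H R) {k : Fin g}
    (hk : k ∈ R) {v u : V g}
    (hv : ∀ i, i ∉ R → v i = 0) (hu : om v u = 1) : ∃ A ∈ HR H R, A v = e k := by
  obtain ⟨A, hA, d, hd⟩ := hH.red hk (mu v) v hv rfl
  have h1 : d * om (e k) (A u) = 1 := by
    rw [← om_smul_left, ← hd, sp_om, hu]
  rcases Int.isUnit_iff.1 (IsUnit.of_mul_eq_one _ h1) with h | h
  · refine ⟨A, hA, ?_⟩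
    rw [hd, h, one_smul]
  · refine ⟨Rt k * Rt k * A, (HR H R).mul_mem ((HR H R).mul_mem (hH.Rt' hk) (hH.Rt' hk)) hA, ?_⟩
    rw [sp_mul, sp_mul, hd, h, sp_smul, sp_smul, Rt_e, Rt_f]
    module

/-- The products `S (e k) u 1` for `u` orthogonal to the handle `k`. -/
lemma EGen.S_vec {H : Subgroup (Sp g)} {R : Finset (Fin g)} (hH : EGen H R) {k : Fin g}
    (hk : k ∈ R) (J : Finset (Fin g)) :
    J ⊆ R → k ∉ J → ∀ u : V g, S (e k) (∑ i ∈ J, ((u i).1 • e i + (u i).2 • f i)) 1 ∈ HR H R := by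
  classical
  have hS1 : ∀ (i : Fin g), i ∈ R → k ≠ i → ∀ c : ℤ, S (e k) (c • e i) 1 ∈ HR H R := by
    intro i hi hki c
    have h0 : om (e k) (c • e i) = 0 := by rw [om_smul_right, om_e_e, mul_zero]
    have : S (e k) (c • e i) 1 = S (e k) (e i) c := by
      refine sp_ext fun x => ?_
      rw [S_apply h0, S_apply (om_e_e k i), om_smul_right]
      module
    rw [this]
    exact hH.See' hk hi hki c
  have hS2 : ∀ (i : Fin g), i ∈ R → k ≠ i → ∀ c : ℤ, S (e k) (c • f i) 1 ∈ HR H R := by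
    intro i hi hki c
    have h0 : om (e k) (c • f i) = 0 := by rw [om_smul_right, om_e_f_ne hki, mul_zero]
    have : S (e k) (c • f i) 1 = S (e k) (f i) c := by
      refine sp_ext fun x => ?_
      rw [S_apply h0, S_apply (om_e_f_ne hki), om_smul_right]
      module
    rw [this]
    exact hH.Sef' hk hi hki c
  induction J using Finset.induction_on with
  | empty =>
    intro _ _ u
    rw [Finset.sum_empty]
    have : S (e k) 0 1 = (1 : Sp g) := by
      refine sp_ext fun x => ?_
      rw [S_apply (om_zero_right _), om_zero_right, sp_one]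
      module
    rw [this]
    exact (HR H R).one_mem
  | insert i J hi ih =>
    intro hJ hkJ u
    rw [Finset.sum_insert hi]
    have hiR : i ∈ R := hJ (Finset.mem_insert_self i J)
    have hki : k ≠ i := fun h => hkJ (h ▸ Finset.mem_insert_self k J)
    have hkJ' : k ∉ J := fun h => hkJ (Finset.mem_insert_of_mem h)
    have hJ' : J ⊆ R := fun x hx => hJ (Finset.mem_insert_of_mem hx)
    have h1 : om (e k) ((u i).1 • e i) = 0 := by rw [om_smul_right, om_e_e, mul_zero]
    have h2 : om (e k) ((u i).2 • f i) = 0 := by rw [om_smul_right, om_e_f_ne hki, mul_zero]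
    have h3 : om (e k) ((u i).1 • e i + (u i).2 • f i) = 0 := by
      rw [om_add_right, h1, h2, add_zero]
    have h4 : om (e k) (∑ j ∈ J, ((u j).1 • e j + (u j).2 • f j)) = 0 := by
      rw [om_e', Finset.sum_apply]
      rw [Finset.sum_eq_zero]
      · rfl
      · intro j hj
        have : k ≠ j := fun h => hkJ' (h ▸ hj)
        rw [Pi.add_apply, Pi.smul_apply, Pi.smul_apply, e_ne this, f_ne this]
        simp
    rw [S_add_right h3 h4, S_add_right h1 h2]
    have m1 := hS1 i hiR hki (u i).1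
    have m2 := hS2 i hiR hki (u i).2
    have m3 := ih hJ' hkJ' u
    generalize (1 ^ 2 * om ((u i).1 • e i + (u i).2 • f i)
      (∑ j ∈ J, ((u j).1 • e j + (u j).2 • f j)) : ℤ) = c1
    generalize (1 ^ 2 * om ((u i).1 • (e i : V g)) ((u i).2 • f i) : ℤ) = c2
    exact mul_mem (mul_mem (mul_mem (mul_mem m1 m2) (hH.Te hk c2)) m3) (hH.Te hk c1)

lemma HR_mono {H : Subgroup (Sp g)} {R R' : Finset (Fin g)} (h : R' ⊆ R) {A : Sp g}
    (hA : A ∈ HR H R') : A ∈ HR H R :=
  ⟨hA.1, fun i hi => hA.2 i (fun h' => hi (h h'))⟩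

/-- A symplectic map fixing the handles outside `R` is in `H`. -/
theorem EGen.mem_of_fix {H : Subgroup (Sp g)} (R : Finset (Fin g)) : EGen H R → ∀ A : Sp g,
    (∀ i, i ∉ R → A (e i) = e i ∧ A (f i) = f i) → A ∈ H := by
  classical
  induction R using Finset.induction_on with
  | empty =>
    intro _ A hA
    have : A = 1 := by
      refine sp_ext fun x => ?_
      rw [sp_one]
      have h1 : A (∑ i, ((x i).1 • e i + (x i).2 • f i)) =
          ∑ i, A ((x i).1 • e i + (x i).2 • f i) := map_sum A.1 _ _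
      have h2 : ∀ i, A ((x i).1 • e i + (x i).2 • f i) = (x i).1 • e i + (x i).2 • f i := by
        intro i
        rw [sp_add, sp_smul, sp_smul, (hA i (Finset.notMem_empty i)).1,
          (hA i (Finset.notMem_empty i)).2]
      rw [← expand x, Finset.sum_congr rfl (fun i _ => h2 i), ← expand x] at h1
      exact h1
    rw [this]
    exact H.one_mem
  | insert k R hk ih =>
    intro hH A hA
    -- the image of e k
    have hsupp : ∀ i, i ∉ insert k R → A (e k) i = 0 := by
      intro i hi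
      have hik : k ≠ i := fun h => hi (h ▸ Finset.mem_insert_self k R)
      have h1 : om (A (e k)) (A (e i)) = 0 := by rw [sp_om, om_e_e]
      have h2 : om (A (e k)) (A (f i)) = 0 := by rw [sp_om, om_e_f_ne hik]
      rw [(hA i hi).1, om_e] at h1
      rw [(hA i hi).2, om_f] at h2
      exact Prod.ext h2 (by
        change (A (e k) i).2 = 0
        omega)
    obtain ⟨B, hB, hBe⟩ := hH.red_prim (Finset.mem_insert_self k R)
      (v := A (e k)) (u := A (f k)) hsupp (by rw [sp_om, om_e_f])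
    -- replace A by B * A
    set A1 := B * A with hA1
    have hA1e : A1 (e k) = e k := by rw [hA1, sp_mul, hBe]
    have hA1fix : ∀ i, i ∉ insert k R → A1 (e i) = e i ∧ A1 (f i) = f i := by
      intro i hi
      rw [hA1, sp_mul, sp_mul, (hA i hi).1, (hA i hi).2]
      exact hB.2 i hi
    set w := A1 (f k) with hw
    have hwk : (w k).2 = 1 := by
      have := sp_om A1 (e k) (f k)
      rw [hA1e, om_e_f, om_e'] at this
      exact this
    have hwsupp : ∀ i, i ∉ insert k R → w i = 0 := by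
      intro i hi
      have hik : k ≠ i := fun h => hi (h ▸ Finset.mem_insert_self k R)
      have h1 : om (A1 (f k)) (A1 (e i)) = 0 := by rw [sp_om, om_f_e_ne hik]
      have h2 : om (A1 (f k)) (A1 (f i)) = 0 := by rw [sp_om, om_f_f]
      rw [(hA1fix i hi).1, om_e] at h1
      rw [(hA1fix i hi).2, om_f] at h2
      exact Prod.ext h2 (by
        change (A1 (f k) i).2 = 0
        omega)
    -- w = f k + s e k + u
    set u : V g := ∑ i ∈ R, ((w i).1 • e i + (w i).2 • f i) with hu
    have hwu : w = f k + (w k).1 • e k + u := by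
      conv_lhs => rw [expand w]
      have h1 : ∑ i, ((w i).1 • e i + (w i).2 • f i) =
          ∑ i ∈ insert k R, ((w i).1 • e i + (w i).2 • f i) := by
        symm
        refine Finset.sum_subset (Finset.subset_univ _) ?_
        intro i _ hi
        rw [hwsupp i hi]
        simp
      rw [h1, Finset.sum_insert hk, hwk]
      module
    have heu : om (e k) u = 0 := by
      rw [om_e', hu, Finset.sum_apply, Finset.sum_eq_zero]
      · rfl
      · intro j hj
        have : k ≠ j := fun h => hk (h ▸ hj)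
        rw [Pi.add_apply, Pi.smul_apply, Pi.smul_apply, e_ne this, f_ne this]
        simp
    have hfu : om (f k) u = 0 := by
      rw [om_f', hu, Finset.sum_apply, Finset.sum_eq_zero]
      · rfl
      · intro j hj
        have : k ≠ j := fun h => hk (h ▸ hj)
        rw [Pi.add_apply, Pi.smul_apply, Pi.smul_apply, e_ne this, f_ne this]
        simp
    -- the clearing elements
    have hSu : S (e k) u 1 ∈ HR H (insert k R) :=
      hH.S_vec (Finset.mem_insert_self k R) R (Finset.subset_insert k R) hk w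
    have hfk : S (e k) u 1 w = f k + (w k).1 • e k := by
      conv_lhs => rw [hwu]
      rw [S_apply heu]
      simp only [om_add_left, om_smul_left, om_f_e, om_self, heu, hfu]
      have : om u (e k) = 0 := by rw [om_swap, heu]; rfl
      rw [this]
      module
    have hSe : S (e k) u 1 (e k) = e k := S_fix heu (om_self _) heu 1
    set C := T (e k) (w k).1 * S (e k) u 1 with hC
    have hCmem : C ∈ HR H (insert k R) :=
      (HR H _).mul_mem (hH.Te (Finset.mem_insert_self k R) _) hSu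
    have hCe : C (e k) = e k := by
      rw [hC, sp_mul, hSe, T_fix (om_self _)]
    have hCw : C w = f k := by
      rw [hC, sp_mul, hfk, T_apply, om_add_left, om_smul_left, om_self, om_f_e]
      module
    have hfin : C * A1 ∈ H := by
      refine ih (hH.mono (Finset.subset_insert k R)) _ fun i hi => ?_
      by_cases hik : i = k
      · rw [hik]
        change C (A1 (e k)) = e k ∧ C (A1 (f k)) = f k
        rw [hA1e, ← hw]
        exact ⟨hCe, hCw⟩
      · have hi' : i ∉ insert k R := by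
          intro h
          rcases Finset.mem_insert.1 h with h | h
          · exact hik h
          · exact hi h
        change C (A1 (e i)) = e i ∧ C (A1 (f i)) = f i
        rw [(hA1fix i hi').1, (hA1fix i hi').2]
        exact hCmem.2 i hi'
    rw [hA1] at hfin
    have h1 := H.mul_mem (H.inv_mem hCmem.1) hfin
    rw [inv_mul_cancel_left] at h1
    have h2 := H.mul_mem (H.inv_mem hB.1) h1
    rwa [inv_mul_cancel_left] at h2

/-! ### Subgroups generated by twists -/

/-- The group generated by the transvections with indices satisfying `P`, `Q`, `R`: the images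
of the twists in `Twists a b P Q R`. -/
def HumP (g : ℕ) (P Q R : ℕ → Prop) : Subgroup (Sp g) :=
  Subgroup.closure {A | (∃ i : Fin g, P i ∧ A = T (e i) 1) ∨ (∃ i : Fin g, Q i ∧ A = T (f i) 1) ∨
    ∃ i j : Fin g, (j : ℕ) = i + 1 ∧ R j ∧ A = T (f i - e j) 1}

section humP

variable {P Q R : ℕ → Prop}

lemma he_mem {i : Fin g} (hi : P i) (s : ℤ) : T (e i) s ∈ HumP g P Q R :=
  T_mem_of (Subgroup.subset_closure (Or.inl ⟨i, hi, rfl⟩)) s

lemma hf_mem {i : Fin g} (hi : Q i) (s : ℤ) : T (f i) s ∈ HumP g P Q R :=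
  T_mem_of (Subgroup.subset_closure (Or.inr (Or.inl ⟨i, hi, rfl⟩))) s

lemma hc_mem {i j : Fin g} (hij : (j : ℕ) = i + 1) (hj : R j) (s : ℤ) :
    T (f i - e j) s ∈ HumP g P Q R :=
  T_mem_of (Subgroup.subset_closure (Or.inr (Or.inr ⟨i, j, hij, hj, rfl⟩))) s

lemma adj_ne {i j : Fin g} (hij : (j : ℕ) = i + 1) : i ≠ j := by
  intro h
  rw [h] at hij
  omega

/-- Elementary elements of adjacent handles. -/
lemma S_adj {H : Subgroup (Sp g)} {i j : Fin g} (hne : i ≠ j)
    (h1 : T (e i) 1 ∈ H) (h2 : T (f i) 1 ∈ H) (h3 : T (e j) 1 ∈ H) (h4 : T (f j) 1 ∈ H)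
    (h5 : T (f i - e j) 1 ∈ H) (s : ℤ) : S (e i) (f j) s ∈ H ∧ S (e j) (f i) s ∈ H := by
  have hRi : Rt i ∈ H := H.mul_mem (H.mul_mem h1 h2) h1
  have hRj : Rt j ∈ H := H.mul_mem (H.mul_mem h3 h4) h3
  constructor
  · have h6 : T (Rt j (f i - e j)) 1 ∈ H := T_conj_mem hRj h5
    rw [sp_sub, Rt_f_ne hne.symm, Rt_e] at h6
    have h7 : T (Rt i (f i - f j)) 1 ∈ H := T_conj_mem hRi h6
    rw [sp_sub, Rt_f, Rt_f_ne hne] at h7
    have h8 : T (e i + f j) 1 ∈ H := by
      rw [← T_neg]
      convert h7 using 2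
      module
    exact S_mem_of h1 h4 h8 s
  · have h6 : T (e j + -f i) 1 ∈ H := by
      rw [← T_neg]
      convert h5 using 2
      module
    have h7 : T (-f i) 1 ∈ H := by rw [T_neg]; exact h2
    have h8 := S_mem_of h3 h7 h6 (-s)
    rw [S_neg_right (om_e_f_ne hne.symm), neg_neg] at h8
    exact h8

lemma S_trans' {H : Subgroup (Sp g)} {i j k : Fin g} (hij : i ≠ j) (hjk : j ≠ k) (hik : i ≠ k)
    (h1 : ∀ s, S (e i) (f j) s ∈ H) (h2 : ∀ s, S (e j) (f k) s ∈ H) (s : ℤ) :
    S (e i) (f k) s ∈ H := by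
  have h3 := S_conj_mem (h2 1) (h1 (-s))
  have e1 : S (e j) (f k) 1 (e i) = e i := by
    rw [S_apply (om_e_f_ne hjk), om_e_e, om_e_f_ne hik]
    simp
  have e2 : S (e j) (f k) 1 (f j) = f j + -f k := by
    rw [S_apply (om_e_f_ne hjk), om_f_e, om_f_f]
    simp
  rw [e1, e2] at h3
  have ha : om (e i) (f j) = 0 := om_e_f_ne hij
  have hb : om (e i) (-f k : V g) = 0 := by rw [om_neg_right, om_e_f_ne hik]; rfl
  rw [S_add_right ha hb, om_neg_right, om_f_f, neg_zero, mul_zero, T_zero, mul_one,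
    S_neg_right (om_e_f_ne hik), neg_neg] at h3
  have h4 := H.mul_mem (H.inv_mem (h1 (-s))) h3
  rwa [inv_mul_cancel_left] at h4

/-- The handles `r, …, t - 1`. -/
def Iv (g r t : ℕ) : Finset (Fin g) := Finset.univ.filter fun i => r ≤ (i : ℕ) ∧ (i : ℕ) < t

lemma mem_Iv {r t : ℕ} {i : Fin g} : i ∈ Iv g r t ↔ r ≤ (i : ℕ) ∧ (i : ℕ) < t := by
  simp [Iv]

/-- A subgroup containing the twists of an interval of handles contains all elementary
elements of these handles. -/
theorem egen_Iv {H : Subgroup (Sp g)} {r t : ℕ}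
    (h1 : ∀ i : Fin g, r ≤ (i : ℕ) → (i : ℕ) < t → T (e i) 1 ∈ H ∧ T (f i) 1 ∈ H)
    (h2 : ∀ i j : Fin g, (j : ℕ) = i + 1 → r ≤ (i : ℕ) → (j : ℕ) < t → T (f i - e j) 1 ∈ H) :
    EGen H (Iv g r t) := by
  have aux : ∀ n : ℕ, ∀ i j : Fin g, (j : ℕ) = i + n + 1 → r ≤ (i : ℕ) → (j : ℕ) < t →
      (∀ s, S (e i) (f j) s ∈ H) ∧ (∀ s, S (e j) (f i) s ∈ H) := by
    intro n
    induction n with
    | zero =>
      intro i j hij hi hj
      have hij' : (j : ℕ) = i + 1 := by omega
      exact ⟨fun s => (S_adj (adj_ne hij') (h1 i hi (by omega)).1 (h1 i hi (by omega)).2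
        (h1 j (by omega) hj).1 (h1 j (by omega) hj).2 (h2 i j hij' hi hj) s).1,
        fun s => (S_adj (adj_ne hij') (h1 i hi (by omega)).1 (h1 i hi (by omega)).2
        (h1 j (by omega) hj).1 (h1 j (by omega) hj).2 (h2 i j hij' hi hj) s).2⟩
    | succ n ih =>
      intro i j hij hi hj
      have hj' := j.2
      let k : Fin g := ⟨i + n + 1, by omega⟩
      have hk : (k : ℕ) = i + n + 1 := rfl
      obtain ⟨h3, h4⟩ := ih i k hk hi (by omega)
      have hkj : (j : ℕ) = k + 1 := by omega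
      have h5 : ∀ s, S (e k) (f j) s ∈ H ∧ S (e j) (f k) s ∈ H := fun s =>
        S_adj (adj_ne hkj) (h1 k (by omega) (by omega)).1 (h1 k (by omega) (by omega)).2
        (h1 j (by omega) hj).1 (h1 j (by omega) hj).2 (h2 k j hkj (by omega) hj) s
      have n1 : i ≠ k := by intro h; have := congrArg Fin.val h; omega
      have n2 : k ≠ j := by intro h; have := congrArg Fin.val h; omega
      have n3 : i ≠ j := by intro h; have := congrArg Fin.val h; omega
      exact ⟨fun s => S_trans' n1 n2 n3 h3 (fun s => (h5 s).1) s,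
        fun s => S_trans' n2.symm n1.symm n3.symm (fun s => (h5 s).2) h4 s⟩
  refine ⟨fun i hi s => ?_, fun i hi s => ?_, fun i hi j hj hij s => ?_⟩
  · rw [mem_Iv] at hi
    exact T_mem_of (h1 i hi.1 hi.2).1 s
  · rw [mem_Iv] at hi
    exact T_mem_of (h1 i hi.1 hi.2).2 s
  · rw [mem_Iv] at hi hj
    rcases lt_trichotomy (i : ℕ) (j : ℕ) with h | h | h
    · exact (aux (j - i - 1) i j (by omega) hi.1 hj.2).1 s
    · exact absurd (Fin.ext h) hij
    · exact (aux (i - j - 1) j i (by omega) hj.1 hi.2).2 s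

/-- The stabiliser of the handles outside an interval. -/
theorem mem_HumP_of_fix {r t : ℕ} (hP : ∀ i, r ≤ i → i < t → P i) (hQ : ∀ i, r ≤ i → i < t → Q i)
    (hR : ∀ j, r + 1 ≤ j → j < t → R j) {A : Sp g}
    (hA : ∀ i : Fin g, ¬ (r ≤ (i : ℕ) ∧ (i : ℕ) < t) → A (e i) = e i ∧ A (f i) = f i) :
    A ∈ HumP g P Q R := by
  refine EGen.mem_of_fix (Iv g r t) (egen_Iv (fun i hi hi' => ⟨he_mem (hP i hi hi') 1,
    hf_mem (hQ i hi hi') 1⟩) (fun i j hij hi hj => hc_mem hij (hR j (by omega) hj) 1)) A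
    (fun i hi => hA i (fun h => hi (mem_Iv.2 h)))

end humP

end Pool.Agent.H.MP_59b15d_al.SP
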