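/-
Stabilisers in Sp(2g, Z) of the class of a standard curve.
-/
import Pool.Agent.H.MP_59b15d_al.h11c.Rel

set_option autoImplicit false

namespace Pool.Agent.H.MP_59b15d_al.SP

variable {g : ℕ}

lemma S_smul_right {u w : V g} (h : om u w = 0) (c s : ℤ) : S u (c • w) s = S u w (c * s) := by
  have h0 : om u (c • w) = 0 := by rw [om_smul_right, h, mul_zero]
  refine sp_ext fun x => ?_
  rw [S_apply h0, S_apply h, om_smul_right]
  module

lemma S_zero_right (u : V g) (s : ℤ) : S u 0 s = (1 : Sp g) := by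
  refine sp_ext fun x => ?_
  rw [S_apply (om_zero_right _), om_zero_right, sp_one]
  module

/-- Sums in the second argument of `S`. -/
lemma S_sum_mem {H : Subgroup (Sp g)} {w : V g} (hT : ∀ s, T w s ∈ H) (J : Finset (Fin g))
    (h1 : ∀ i ∈ J, om w (e i) = 0 ∧ om w (f i) = 0)
    (h2 : ∀ i ∈ J, ∀ s, S w (e i) s ∈ H ∧ S w (f i) s ∈ H) (u : V g) (s : ℤ) :
    S w (∑ i ∈ J, ((u i).1 • e i + (u i).2 • f i)) s ∈ H := by
  classical
  induction J using Finset.induction_on with
  | empty =>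
    rw [Finset.sum_empty, S_zero_right]
    exact H.one_mem
  | insert i J hi ih =>
    rw [Finset.sum_insert hi]
    have hi1 := h1 i (Finset.mem_insert_self i J)
    have hi2 := h2 i (Finset.mem_insert_self i J)
    have a1 : om w ((u i).1 • e i) = 0 := by rw [om_smul_right, hi1.1, mul_zero]
    have a2 : om w ((u i).2 • f i) = 0 := by rw [om_smul_right, hi1.2, mul_zero]
    have a3 : om w ((u i).1 • e i + (u i).2 • f i) = 0 := by
      rw [om_add_right, a1, a2, add_zero]
    have a4 : om w (∑ j ∈ J, ((u j).1 • e j + (u j).2 • f j)) = 0 := by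
      have : om w (∑ j ∈ J, ((u j).1 • e j + (u j).2 • f j)) =
          -omL w (∑ j ∈ J, ((u j).1 • e j + (u j).2 • f j)) := by
        rw [omL_apply, om_swap]
      rw [this, map_sum, Finset.sum_eq_zero]
      · rfl
      · intro j hj
        have hj1 := h1 j (Finset.mem_insert_of_mem hj)
        rw [omL_apply, om_swap, om_add_right, om_smul_right, om_smul_right, hj1.1, hj1.2]
        ring
    have m3 := ih (fun j hj => h1 j (Finset.mem_insert_of_mem hj))
      (fun j hj => h2 j (Finset.mem_insert_of_mem hj))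
    rw [S_add_right a3 a4, S_add_right a1 a2, S_smul_right hi1.1, S_smul_right hi1.2]
    have m1 := (hi2 ((u i).1 * s)).1
    have m2 := (hi2 ((u i).2 * s)).2
    generalize (s ^ 2 * om ((u i).1 • e i + (u i).2 • f i)
      (∑ j ∈ J, ((u j).1 • e j + (u j).2 • f j)) : ℤ) = c1
    generalize (s ^ 2 * om ((u i).1 • (e i : V g)) ((u i).2 • f i) : ℤ) = c2
    exact mul_mem (mul_mem (mul_mem (mul_mem m1 m2) (hT c2)) m3) (hT c1)

/-- Elements fixing one vector of a hyperbolic pair, abstract version: `k` is a handle, `R` a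
set of handles not containing `k`, and `A` fixes `f k` and all handles outside `insert k R`. -/
theorem stab_f_aux {H : Subgroup (Sp g)} {R : Finset (Fin g)} {k : Fin g} (hk : k ∉ R)
    (hH : EGen H R) (hf : ∀ s, T (f k) s ∈ H)
    (hS : ∀ i ∈ R, ∀ s, S (f k) (e i) s ∈ H ∧ S (f k) (f i) s ∈ H) {A : Sp g}
    (hAf : A (f k) = f k)
    (hA : ∀ i, i ∉ insert k R → A (e i) = e i ∧ A (f i) = f i) : A ∈ H := by
  classical
  set w := A (e k) with hw
  have hwk : (w k).1 = 1 := by
    have := sp_om A (e k) (f k)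
    rw [hAf, om_e_f, om_f] at this
    exact this
  have hne : ∀ i ∈ R, k ≠ i := fun i hi h => hk (h ▸ hi)
  have hwsupp : ∀ i, i ∉ insert k R → w i = 0 := by
    intro i hi
    have hik : k ≠ i := fun h => hi (h ▸ Finset.mem_insert_self k R)
    have h1 : om (A (e k)) (A (e i)) = 0 := by rw [sp_om, om_e_e]
    have h2 : om (A (e k)) (A (f i)) = 0 := by rw [sp_om, om_e_f_ne hik]
    rw [(hA i hi).1, om_e] at h1
    rw [(hA i hi).2, om_f] at h2
    exact Prod.ext h2 (by
      change (A (e k) i).2 = 0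
      omega)
  set u : V g := ∑ i ∈ R, ((w i).1 • e i + (w i).2 • f i) with hu
  have hwu : w = e k + (w k).2 • f k + u := by
    conv_lhs => rw [expand w]
    have h1 : ∑ i, ((w i).1 • e i + (w i).2 • f i) =
        ∑ i ∈ insert k R, ((w i).1 • e i + (w i).2 • f i) := by
      symm
      refine Finset.sum_subset (Finset.subset_univ _) ?_
      intro i _ hi
      rw [hwsupp i hi]
      simp
    rw [h1, Finset.sum_insert hk, hwk]
    module
  have huk : u k = 0 := by
    rw [hu, Finset.sum_apply, Finset.sum_eq_zero]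
    intro j hj
    rw [Pi.add_apply, Pi.smul_apply, Pi.smul_apply, e_ne (hne j hj), f_ne (hne j hj)]
    simp
  have heu : om (e k) u = 0 := by rw [om_e', huk]; rfl
  have hfu : om (f k) u = 0 := by rw [om_f', huk]; rfl
  have hSu : S (f k) u (-1) ∈ H :=
    S_sum_mem hf R (fun i hi => ⟨om_f_e_ne (hne i hi), om_f_f k i⟩) hS w (-1)
  have hfk : S (f k) u (-1) w = e k + (w k).2 • f k := by
    conv_lhs => rw [hwu]
    rw [S_apply hfu]
    simp only [om_add_left, om_smul_left, om_e_f, om_self, heu, hfu]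
    have : om u (f k) = 0 := by rw [om_swap, hfu]; rfl
    rw [this]
    module
  have hSf : S (f k) u (-1) (f k) = f k := S_fix hfu (om_self _) hfu (-1)
  set C := T (f k) (-(w k).2) * S (f k) u (-1) with hC
  have hCmem : C ∈ H := H.mul_mem (hf _) hSu
  have hCf : C (f k) = f k := by
    rw [hC, sp_mul, hSf, T_fix (om_self _)]
  have hCw : C w = e k := by
    rw [hC, sp_mul, hfk, T_apply, om_add_left, om_smul_left, om_self, om_e_f]
    module
  have hCfix : ∀ i, i ∉ insert k R → C (e i) = e i ∧ C (f i) = f i := by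
    intro i hi
    have hik : i ≠ k := fun h => hi (h ▸ Finset.mem_insert_self i R)
    have hui : u i = 0 := by
      rw [hu, Finset.sum_apply, Finset.sum_eq_zero]
      intro j hj
      have hij : i ≠ j := fun h => hi (Finset.mem_insert_of_mem (h ▸ hj))
      rw [Pi.add_apply, Pi.smul_apply, Pi.smul_apply, e_ne hij, f_ne hij]
      simp
    have h1 : om (e i) u = 0 := by rw [om_e', hui]; rfl
    have h2 : om (f i) u = 0 := by rw [om_f', hui]; rfl
    constructor
    · rw [hC, sp_mul, S_fix hfu (om_e_f_ne hik) h1, T_fix (om_e_f_ne hik)]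
    · rw [hC, sp_mul, S_fix hfu (om_f_f i k) h2, T_fix (om_f_f i k)]
  have hfin : C * A ∈ H := by
    refine EGen.mem_of_fix R hH _ fun i hi => ?_
    by_cases hik : i = k
    · rw [hik]
      change C (A (e k)) = e k ∧ C (A (f k)) = f k
      rw [hAf, ← hw]
      exact ⟨hCw, hCf⟩
    · have hi' : i ∉ insert k R := by
        intro h
        rcases Finset.mem_insert.1 h with h | h
        · exact hik h
        · exact hi h
      change C (A (e i)) = e i ∧ C (A (f i)) = f i
      rw [(hA i hi').1, (hA i hi').2]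
      exact hCfix i hi'
  have h1 := H.mul_mem (H.inv_mem hCmem) hfin
  rwa [inv_mul_cancel_left] at h1

/-- Spreading `S (f k) (e i)` from one handle of `R` to all. -/
lemma spread_S {H : Subgroup (Sp g)} {R : Finset (Fin g)} {w : V g}
    (hH : EGen H R) {i₀ : Fin g} (hi₀ : i₀ ∈ R) (hw : ∀ i ∈ R, w i = 0)
    (h : ∀ s, S w (e i₀) s ∈ H) : ∀ i ∈ R, ∀ s, S w (e i) s ∈ H ∧ S w (f i) s ∈ H := by
  have hfix : ∀ B ∈ HR H R, B w = w := by
    intro B hB
    have h1 : B (∑ i, ((w i).1 • e i + (w i).2 • f i)) =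
        ∑ i, B ((w i).1 • e i + (w i).2 • f i) := map_sum B.1 _ _
    have h2 : ∀ i, B ((w i).1 • e i + (w i).2 • f i) = (w i).1 • e i + (w i).2 • f i := by
      intro i
      by_cases hi : i ∈ R
      · rw [hw i hi, sp_add, sp_smul, sp_smul]
        simp
      · rw [sp_add, sp_smul, sp_smul, (hB.2 i hi).1, (hB.2 i hi).2]
    rw [← expand w, Finset.sum_congr rfl (fun i _ => h2 i), ← expand w] at h1
    exact h1
  have h1 : ∀ i ∈ R, ∀ s, S w (e i) s ∈ H := by
    intro i hi s
    obtain ⟨B, hB, hBe⟩ := hH.red_prim hi₀ (v := e i) (u := f i)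
      (fun j hj => e_ne (fun h => hj (h ▸ hi))) (om_e_f i)
    have h2 := S_conj_mem (H.inv_mem hB.1) (h s)
    have h3 : B⁻¹ (e i₀) = e i := by rw [← hBe, sp_inv_apply]
    have h4 : B⁻¹ w = w := hfix _ ((HR H R).inv_mem hB)
    rwa [h3, h4] at h2
  intro i hi s
  refine ⟨h1 i hi s, ?_⟩
  have h2 := S_conj_mem (hH.rt hi) (h1 i hi s)
  have h3 : Rt i w = w := hfix _ (hH.Rt' hi)
  rwa [Rt_e, h3] at h2

/-- **The stabiliser of `f 0`** is generated by the transvections of all standard curves but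
the class `e 0`. -/
theorem stab_f_zero {P Q R : ℕ → Prop} (hP : ∀ i, i ≠ 0 → P i) (hQ : ∀ i, Q i) (hR : ∀ i, R i)
    {z : Fin g} (hz : (z : ℕ) = 0) {A : Sp g} (hA : A (f z) = f z) : A ∈ HumP g P Q R := by
  classical
  have hE : EGen (HumP g P Q R) (Iv g 1 g) :=
    egen_Iv (fun i hi _ => ⟨he_mem (hP i (by omega)) 1, hf_mem (hQ i) 1⟩)
      (fun i j hij _ _ => hc_mem hij (hR j) 1)
  have hzI : z ∉ Iv g 1 g := by
    rw [mem_Iv]
    omega
  have hall : ∀ i, i ∈ insert z (Iv g 1 g) := by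
    intro i
    rw [Finset.mem_insert, mem_Iv]
    by_cases hi : i = z
    · exact Or.inl hi
    · refine Or.inr ⟨?_, i.2⟩
      have : (i : ℕ) ≠ 0 := fun h => hi (Fin.ext (by omega))
      omega
  refine stab_f_aux hzI hE (fun s => hf_mem (hQ z) s) ?_ hA (fun i hi => absurd (hall i) hi)
  intro i hi
  have hi1 := (mem_Iv.1 hi)
  have hg1 : 1 < g := by
    have := i.2
    omega
  let o : Fin g := ⟨1, hg1⟩
  have hoI : o ∈ Iv g 1 g := mem_Iv.2 ⟨le_refl 1, hg1⟩
  have hoz : (o : ℕ) = z + 1 := by rw [hz]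
  have hne : z ≠ o := adj_ne hoz
  have h1 : ∀ s, S (f z) (e o) s ∈ HumP g P Q R := by
    intro s
    have h2 : T (f z - e o) 1 ∈ HumP g P Q R := hc_mem hoz (hR o) 1
    have h3 : T (-e o) 1 ∈ HumP g P Q R := by
      rw [T_neg]
      exact he_mem (hP o (by change (1 : ℕ) ≠ 0; omega)) 1
    have h4 := S_mem_of (hf_mem (hQ z) 1) h3 (by rw [← sub_eq_add_neg]; exact h2) (-s)
    rwa [S_neg_right (om_f_e_ne hne), neg_neg] at h4
  exact spread_S hE hoI (fun j hj => f_ne (fun h : j = z => hzI (h ▸ hj))) h1 i hi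

/-- The stabiliser of the hyperbolic pair `e 0, f 0`. -/
theorem stab_ef_zero {P Q R : ℕ → Prop} (hP : ∀ i, i ≠ 0 → P i) (hQ : ∀ i, i ≠ 0 → Q i)
    (hR : ∀ i, 2 ≤ i → R i) {z : Fin g} (hz : (z : ℕ) = 0) {A : Sp g} (hA : A (f z) = f z)
    (hA' : A (e z) = e z) : A ∈ HumP g P Q R := by
  refine mem_HumP_of_fix (r := 1) (t := g) (fun i hi _ => hP i (by omega))
    (fun i hi _ => hQ i (by omega)) (fun j hj _ => hR j (by omega)) fun i hi => ?_
  have : i = z := Fin.ext (by
    have := i.2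
    omega)
  rw [this]
  exact ⟨hA', hA⟩

end Pool.Agent.H.MP_59b15d_al.SP
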