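/-
The abstract Mennicke lemma: a function on the pairs (a, b) with a = 1, b = 0 mod m,
gcd (a, b) = 1 with the properties m1 .. m6 of a Mennicke symbol is trivial.
(Towards: the congruence subgroup theorem for Sp(2g, Z).)
-/
import Mathlib

namespace H11C

/-- Mennicke symbols of level `m` with values in a group. -/
structure MSym (m : ℤ) {C : Type*} [Group C] (F : ℤ → ℤ → C) : Prop where
  m1 : ∀ a b t : ℤ, m ∣ a - 1 → m ∣ b → IsCoprime a b → F (a + t * b) b = F a b
  m2 : ∀ a b t : ℤ, m ∣ a - 1 → m ∣ b → IsCoprime a b → F a (b + t * (m * a)) = F a b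
  m3 : ∀ a b b' : ℤ, m ∣ a - 1 → m ∣ b → m ∣ b' → IsCoprime a b → IsCoprime a b' →
    F a (b * b') = F a b * F a b'
  m4 : ∀ b : ℤ, m ∣ b → F 1 b = 1
  m6 : ∀ a a' b c d : ℤ, m ∣ a - 1 → m ∣ a' - 1 → m ∣ b → m ∣ c → m ∣ d - 1 →
    IsCoprime a b → a' * d - b * c = 1 → F a b * F a' b = F (a * a' + b * c) (b * (a + d))

variable {m : ℤ} {C : Type*} [Group C] {F : ℤ → ℤ → C}

theorem MSym.m1' (h : MSym m F) {a a' b : ℤ} (ha : m ∣ a - 1) (hb : m ∣ b)
    (hab : IsCoprime a b) (h' : b ∣ a' - a) : F a' b = F a b := by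
  obtain ⟨t, ht⟩ := h'
  have : a' = a + t * b := by linear_combination ht
  rw [this, h.m1 a b t ha hb hab]

theorem MSym.m2' (h : MSym m F) {a b b' : ℤ} (ha : m ∣ a - 1) (hb : m ∣ b)
    (hab : IsCoprime a b) (h' : m * a ∣ b' - b) : F a b' = F a b := by
  obtain ⟨t, ht⟩ := h'
  have : b' = b + t * (m * a) := by linear_combination ht
  rw [this, h.m2 a b t ha hb hab]

theorem MSym.one_sub (h : MSym m F) {a : ℤ} (ha : m ∣ a - 1) : F a (1 - a) = 1 := by
  have e : F a (1 - a) = F 1 (1 - a) :=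
    h.m1' (by simp) (by rw [← neg_sub]; exact (dvd_neg).2 ha) isCoprime_one_left ⟨-1, by ring⟩
  rw [e, h.m4 _ (by rw [← neg_sub]; exact (dvd_neg).2 ha)]

theorem MSym.sub_one (h : MSym m F) {a : ℤ} (ha : m ∣ a - 1) : F a (a - 1) = 1 := by
  have e : F a (a - 1) = F 1 (a - 1) :=
    h.m1' (by simp) ha isCoprime_one_left ⟨1, by ring⟩
  rw [e, h.m4 _ ha]

theorem coprime_m {a m : ℤ} (ha : m ∣ a - 1) : IsCoprime a m := by
  obtain ⟨t, ht⟩ := ha
  exact ⟨1, -t, by linear_combination ht⟩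

theorem MSym.m7 (h : MSym m F) {a a' b : ℤ} (ha : m ∣ a - 1) (ha' : m ∣ a' - 1) (hb : m ∣ b)
    (hab : IsCoprime a b) (hab' : IsCoprime a' b) : F a b * F a' b = F (a * a') b := by
  -- choose c, d
  have hco : IsCoprime a' (b * m) := hab'.mul_right (coprime_m ha')
  obtain ⟨d, c', hdc⟩ := hco
  obtain ⟨s, hs⟩ := ha
  obtain ⟨s', hs'⟩ := ha'
  obtain ⟨β, hβ⟩ := hb
  have ha : m ∣ a - 1 := ⟨s, hs⟩
  have ha' : m ∣ a' - 1 := ⟨s', hs'⟩
  have hb : m ∣ b := ⟨β, hβ⟩
  have hd : m ∣ d - 1 := ⟨-(s' * d) - c' * b, by linear_combination hdc - d * hs'⟩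
  obtain ⟨δ, hδ⟩ := hd
  have hd : m ∣ d - 1 := ⟨δ, hδ⟩
  have h6 := h.m6 a a' b (-(c' * m)) d ha ha' hb ⟨-c', by ring⟩ hd hab
    (by linear_combination hdc)
  rw [h6]
  set w : ℤ := a + d with hw
  have hA : a * a' + b * -(c' * m) = a' * w - 1 := by
    rw [hw]; linear_combination -hdc
  set A : ℤ := a' * w - 1 with hA'
  rw [hA]
  -- congruences
  have hAm : m ∣ A - 1 := ⟨s' * w + s + δ, by rw [hA', hw]; linear_combination (a + d) * hs' + hs + hδ⟩
  obtain ⟨α, hα⟩ := hAm
  have hAm : m ∣ A - 1 := ⟨α, hα⟩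
  have hAb' : b ∣ A - a * a' := ⟨-(c' * m), by linear_combination -hA⟩
  have hcaa : IsCoprime (a * a') b := hab.mul_left hab'
  have hAb : IsCoprime A b := by
    obtain ⟨t, ht⟩ := hAb'
    have : A = a * a' + b * t := by linear_combination ht
    rw [this]
    exact IsCoprime.add_mul_left_left hcaa t
  have hAw : IsCoprime A w := ⟨-1, a', by rw [hA']; ring⟩
  have hAa' : IsCoprime A a' := ⟨-1, w, by rw [hA']; ring⟩
  have hw2 : m ∣ w - 2 * A := ⟨s + δ - 2 * α, by rw [hw]; linear_combination hs + hδ - 2 * hα⟩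
  have hAw2 : IsCoprime A (w - 2 * A) := by
    have := IsCoprime.add_mul_left_right hAw (-2)
    have e : w + A * -2 = w - 2 * A := by ring
    rwa [e] at this
  have ha2 : m ∣ a' - A := ⟨s' - α, by linear_combination hs' - hα⟩
  have hAa2 : IsCoprime A (a' - A) := by
    have := IsCoprime.add_mul_left_right hAa' (-1)
    have e : a' + A * -1 = a' - A := by ring
    rwa [e] at this
  -- F(A, b w) = F(A, b (w - 2A))
  have e1 : F A (b * w) = F A (b * (w - 2 * A)) := by
    refine h.m2' hAm (Dvd.dvd.mul_right hb _) (hAb.mul_right hAw2) ⟨2 * β, ?_⟩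
    rw [hβ]; ring
  have e2 : F A (b * (w - 2 * A)) = F A b * F A (w - 2 * A) := h.m3 A _ _ hAm hb hw2 hAb hAw2
  have e3 : F A (w - 2 * A) * F A (a' - A) = 1 := by
    rw [← h.m3 A _ _ hAm hw2 ha2 hAw2 hAa2]
    have e : F A ((w - 2 * A) * (a' - A)) = F A (1 - A) := by
      refine h.m2' hAm (by rw [← neg_sub]; exact (dvd_neg).2 hAm) ⟨1, 1, by ring⟩
        ⟨-(s + δ) - 2 * s' + 2 * α, ?_⟩
      have e5 : (w - 2 * A) * (a' - A) - (1 - A) = A * (2 - w - 2 * a' + 2 * A) := by
        rw [hA']; ring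
      rw [e5]
      have e6 : 2 - w - 2 * a' + 2 * A = m * (-(s + δ) - 2 * s' + 2 * α) := by
        rw [hw]; linear_combination -hs - hδ - 2 * hs' + 2 * hα
      rw [e6]; ring
    rw [e, h.one_sub hAm]
  have e4 : F A (a' - A) = 1 := by
    have f1 : F a' (a' - A) = F A (a' - A) := h.m1' hAm ha2 hAa2 ⟨1, by ring⟩
    have f2 : F a' (a' - A) = F a' (1 - a') := by
      refine h.m2' ha' (by rw [← neg_sub]; exact (dvd_neg).2 ha') ⟨1, 1, by ring⟩
        ⟨-(s + δ), ?_⟩
      have e5 : (a' - A) - (1 - a') = a' * (2 - w) := by rw [hA']; ring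
      rw [e5]
      have e6 : 2 - w = m * (-(s + δ)) := by rw [hw]; linear_combination -hs - hδ
      rw [e6]; ring
    rw [← f1, f2, h.one_sub ha']
  rw [e4, mul_one] at e3
  rw [e1, e2, e3, mul_one]
  exact h.m1' (by
    refine ⟨s * a' + s', ?_⟩
    linear_combination a' * hs + hs') hb hcaa hAb'

theorem MSym.pow_b (h : MSym m F) {a b : ℤ} (ha : m ∣ a - 1) (hb : m ∣ b)
    (hab : IsCoprime a b) (k : ℕ) : F a b ^ (k + 1) = F a (b ^ (k + 1)) := by
  induction k with
  | zero => simp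
  | succ k ih =>
    rw [pow_succ, ih, pow_succ b (k + 1), h.m3 a _ _ ha (hb.trans (dvd_pow_self b (by omega))) hb
      hab.pow_right hab]

theorem dvd_pow_sub_one {a m : ℤ} (ha : m ∣ a - 1) (k : ℕ) : m ∣ a ^ k - 1 := by
  have := sub_dvd_pow_sub_pow a 1 k
  rw [one_pow] at this
  exact ha.trans this

theorem MSym.pow_a (h : MSym m F) {a b : ℤ} (ha : m ∣ a - 1) (hb : m ∣ b)
    (hab : IsCoprime a b) (k : ℕ) : F a b ^ (k + 1) = F (a ^ (k + 1)) b := by
  induction k with
  | zero => simp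
  | succ k ih =>
    rw [pow_succ, ih, pow_succ a (k + 1), h.m7 (dvd_pow_sub_one ha _) ha hb hab.pow_left hab]

theorem MSym.prime_case (h : MSym m F) (hm : 0 < m) {p : ℕ} (hp : p.Prime) (hp4 : p % 4 = 3)
    {a b : ℤ} (hap : a = p ∨ a = -p) (ha : m ∣ a - 1) (hb : m ∣ b) (hab : IsCoprime a b) :
    F a b = 1 := by
  have : Fact p.Prime := ⟨hp⟩
  have hpa : ∀ x : ℤ, (p : ℤ) ∣ x → a ∣ x := by
    intro x hx
    rcases hap with e | e
    · rw [e]; exact hx
    · rw [e]; exact (neg_dvd).2 hx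
  have hap' : (p : ℤ) ∣ a := by
    rcases hap with e | e
    · rw [e]
    · rw [e]; exact (dvd_neg).2 dvd_rfl
  have hcop : ∀ x : ℤ, IsCoprime (p : ℤ) x → IsCoprime a x := by
    intro x hx
    rcases hap with e | e
    · rw [e]; exact hx
    · rw [e]; exact hx.neg_left
  have hcop' : ∀ x : ℤ, IsCoprime a x → IsCoprime (p : ℤ) x := by
    intro x hx
    exact IsCoprime.of_isCoprime_of_dvd_left hx hap'
  obtain ⟨k, hk⟩ : ∃ k, p = 4 * k + 3 := ⟨p / 4, by omega⟩
  have hr : p / 2 = 2 * k + 1 := by omega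
  have ham : IsCoprime a m := coprime_m ha
  -- step 1
  have hbp : (b : ZMod p) ≠ 0 := by
    intro h0
    have h1 : (p : ℤ) ∣ b := (ZMod.intCast_zmod_eq_zero_iff_dvd b p).1 h0
    have h2 := hcop' b hab
    have h3 := h2.isUnit_of_dvd' dvd_rfl h1
    rw [Int.isUnit_iff] at h3
    have := hp.two_le
    omega
  have hx1 : F a b ^ (2 * k + 1) = 1 := by
    rw [h.pow_b ha hb hab]
    have hbk : m ∣ b ^ (2 * k + 1) := hb.trans (dvd_pow_self b (by omega))
    have hna : m ∣ 1 - a := by rw [← neg_sub]; exact (dvd_neg).2 ha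
    rcases ZMod.pow_div_two_eq_neg_one_or_one p hbp with h1 | h1
    · rw [hr] at h1
      have h2 : (p : ℤ) ∣ b ^ (2 * k + 1) - 1 := by
        rw [← ZMod.intCast_zmod_eq_zero_iff_dvd]
        push_cast
        rw [h1, sub_self]
      have h3 : m * a ∣ b ^ (2 * k + 1) - (1 - a) := by
        refine ham.symm.mul_dvd (dvd_sub hbk hna) ?_
        have e : b ^ (2 * k + 1) - (1 - a) = (b ^ (2 * k + 1) - 1) + a := by ring
        rw [e]
        exact dvd_add (hpa _ h2) dvd_rfl
      have h4 : IsCoprime a (1 - a) := ⟨1, 1, by ring⟩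
      rw [h.m2' ha hna h4 h3, h.one_sub ha]
    · rw [hr] at h1
      have h2 : (p : ℤ) ∣ b ^ (2 * k + 1) + 1 := by
        rw [← ZMod.intCast_zmod_eq_zero_iff_dvd]
        push_cast
        rw [h1]; ring
      have h3 : m * a ∣ b ^ (2 * k + 1) - (a - 1) := by
        refine ham.symm.mul_dvd (dvd_sub hbk ha) ?_
        have e : b ^ (2 * k + 1) - (a - 1) = (b ^ (2 * k + 1) + 1) - a := by ring
        rw [e]
        exact dvd_sub (hpa _ h2) dvd_rfl
      have h4 : IsCoprime a (a - 1) := ⟨1, -1, by ring⟩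
      rw [h.m2' ha ha h4 h3, h.sub_one ha]
  -- step 2
  obtain ⟨β, hβ⟩ := hb
  have hb : m ∣ b := ⟨β, hβ⟩
  have hβp : IsCoprime (p : ℤ) β := by
    have := hcop' b hab
    rw [hβ] at this
    exact this.of_mul_right_right
  set r : ℕ := 2 * k + 1 with hrdef
  have hpr : (p : ℤ) = 2 * r + 1 := by rw [hk, hrdef]; push_cast; ring
  set c : ℤ := -2 * r * β + 2 * p with hc
  have hcp : IsCoprime (p : ℤ) c := by
    have e : c = β + (p : ℤ) * (2 - β) := by
      rw [hc]
      linear_combination β * hpr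
    rw [e]
    exact IsCoprime.add_mul_left_right hβp _
  have hcr : IsCoprime (r : ℤ) c := by
    have e : c = 2 + (r : ℤ) * (4 - 2 * β) := by
      rw [hc]
      linear_combination 2 * hpr
    rw [e]
    refine IsCoprime.add_mul_left_right ?_ _
    exact ⟨1, -(k : ℤ), by rw [hrdef]; push_cast; ring⟩
  have hcpr : IsCoprime c ((p * r : ℕ) : ℤ) := by
    push_cast
    exact (hcp.mul_left hcr).symm
  obtain ⟨q, hqm, hq, hqc⟩ := Nat.forall_exists_prime_gt_and_zmodEq m.natAbs
    (q := p * r) (a := c) (by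
      have := hp.pos
      positivity) hcpr
  obtain ⟨s, hs⟩ := hqc.symm.dvd
  have hq2 := hq.two_le
  have hqeq : (q : ℤ) = c + p * r * s := by
    push_cast at hs
    linear_combination hs
  have hqβ : (p : ℤ) ∣ q - β := ⟨2 - β + r * s, by
    rw [hqeq, hc]; linear_combination β * hpr⟩
  have hpq : IsCoprime (p : ℤ) q := by
    obtain ⟨t, ht⟩ := hqβ
    have : (q : ℤ) = β + p * t := by linear_combination ht
    rw [this]
    exact IsCoprime.add_mul_left_right hβp _
  have haq : IsCoprime a q := hcop _ hpq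
  have hamq : IsCoprime a (m * q) := ham.mul_right haq
  have e1 : F a (m * q) = F a b := by
    refine h.m2' ha hb hab ?_
    rw [hβ]
    have : m * (q : ℤ) - m * β = m * (q - β) := by ring
    rw [this]
    exact mul_dvd_mul_left m (hpa _ hqβ)
  have hmq : IsCoprime m (q : ℤ) := by
    rw [Int.isCoprime_iff_gcd_eq_one]
    rw [Int.gcd_comm]
    have : Nat.Coprime q m.natAbs := by
      rw [Nat.Prime.coprime_iff_not_dvd hq]
      intro hd
      have := Nat.le_of_dvd (by omega) hd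
      omega
    simpa [Int.gcd] using this
  have hx2 : F a b ^ (q - 1) = 1 := by
    have e2 : q - 1 = (q - 2) + 1 := by omega
    rw [← e1, e2, h.pow_a ha (Dvd.intro _ rfl) hamq, ← e2]
    rw [h.m1' (a := 1) (a' := a ^ (q - 1)) (by simp) (Dvd.intro _ rfl) isCoprime_one_left]
    · exact h.m4 _ (Dvd.intro _ rfl)
    · refine hmq.mul_dvd (dvd_pow_sub_one ha _) ?_
      exact (Int.ModEq.pow_card_sub_one_eq_one hq haq).symm.dvd
  -- end
  have hcop2 : Nat.gcd (q - 1) r = 1 := by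
    have : IsCoprime (((q - 1 : ℕ)) : ℤ) (r : ℤ) := by
      have e : ((q - 1 : ℕ) : ℤ) = 1 + (r : ℤ) * (4 - 2 * β + p * s) := by
        rw [Nat.cast_sub (by omega)]
        rw [hqeq, hc]
        push_cast
        linear_combination 2 * hpr
      rw [e]
      exact (IsCoprime.add_mul_left_left isCoprime_one_left _)
    exact Nat.isCoprime_iff_coprime.1 this
  have ho : orderOf (F a b) ∣ Nat.gcd (q - 1) r :=
    Nat.dvd_gcd (orderOf_dvd_of_pow_eq_one hx2) (orderOf_dvd_of_pow_eq_one hx1)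
  rw [hcop2, Nat.dvd_one, orderOf_eq_one_iff] at ho
  exact ho

/-- **Mennicke's lemma**: Mennicke symbols of positive level are trivial. -/
theorem MSym.eq_one (h : MSym m F) (hm : 0 < m) {a b : ℤ} (ha : m ∣ a - 1) (hb : m ∣ b)
    (hab : IsCoprime a b) : F a b = 1 := by
  -- b ≠ 0
  wlog hb0 : b ≠ 0 generalizing b
  · push Not at hb0
    have ha0 : a ≠ 0 := by
      rintro rfl
      rw [hb0] at hab
      exact not_isCoprime_zero_zero hab
    have e := h.m2 a b 1 ha hb hab
    rw [← e]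
    refine this (dvd_add hb ⟨a, by ring⟩) ?_ ?_
    · have := IsCoprime.add_mul_left_right hab m
      have e2 : b + a * m = b + 1 * (m * a) := by ring
      rwa [e2] at this
    · rw [hb0]
      have : m * a ≠ 0 := mul_ne_zero (by omega) ha0
      simpa using this
  -- a odd
  wlog hodd : a % 2 = 1 generalizing a
  · have hb2 : b % 2 = 1 := by
      by_contra hb2
      have h2a : (2 : ℤ) ∣ a := by omega
      have h2b : (2 : ℤ) ∣ b := by omega
      have := hab.isUnit_of_dvd' h2a h2b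
      rw [Int.isUnit_iff] at this
      omega
    rw [← h.m1 a b 1 ha hb hab]
    refine this ?_ ?_ ?_
    · have e : a + 1 * b - 1 = (a - 1) + b := by ring
      rw [e]; exact dvd_add ha hb
    · have := IsCoprime.add_mul_left_left hab 1
      have e2 : a + b * 1 = a + 1 * b := by ring
      rwa [e2] at this
    · omega
  have h4 : IsCoprime a 4 := by
    rcases (show a % 4 = 1 ∨ a % 4 = 3 by omega) with h1 | h1
    · exact ⟨1, -(a / 4), by omega⟩
    · exact ⟨-1, (a / 4) + 1, by omega⟩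
  have hab4 : IsCoprime a (4 * b) := h4.mul_right hab
  have hnz : 4 * b.natAbs ≠ 0 := by
    have := Int.natAbs_ne_zero.2 hb0
    omega
  have hcast : ∀ x : ℤ, x ∣ ((4 * b.natAbs : ℕ) : ℤ) ↔ x ∣ 4 * b := by
    intro x
    push_cast
    rcases abs_choice b with e | e
    · rw [e]
    · rw [e, mul_neg, dvd_neg]
  have hcast' : ∀ x : ℤ, ((4 * b.natAbs : ℕ) : ℤ) ∣ x ↔ 4 * b ∣ x := by
    intro x
    push_cast
    rcases abs_choice b with e | e
    · rw [e]
    · rw [e, mul_neg, neg_dvd]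
  have hcastc : ∀ x : ℤ, IsCoprime x (4 * b) → IsCoprime x ((4 * b.natAbs : ℕ) : ℤ) := by
    intro x hx
    push_cast
    rcases abs_choice b with e | e
    · rw [e]; exact hx
    · rw [e, mul_neg]; exact hx.neg_right
  rcases (show a % 4 = 3 ∨ a % 4 = 1 by omega) with h1 | h1
  · obtain ⟨p, -, hp, hpc⟩ := Nat.forall_exists_prime_gt_and_zmodEq 0 hnz (hcastc a hab4)
    have hd : 4 * b ∣ (p : ℤ) - a := (hcast' _).1 hpc.symm.dvd
    obtain ⟨t, ht⟩ := hd
    have e1 : F (p : ℤ) b = F a b := h.m1' ha hb hab ⟨4 * t, by rw [ht]; ring⟩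
    have hpm : m ∣ (p : ℤ) - 1 := by
      have : (p : ℤ) - 1 = (a - 1) + b * (4 * t) := by linear_combination ht
      rw [this]
      exact dvd_add ha (Dvd.dvd.mul_right hb _)
    have hp4 : p % 4 = 3 := by
      have : (p : ℤ) = a + 4 * (b * t) := by linear_combination ht
      omega
    have hpb : IsCoprime (p : ℤ) b := by
      have : (p : ℤ) = a + b * (4 * t) := by linear_combination ht
      rw [this]
      exact IsCoprime.add_mul_left_left hab _
    rw [← e1]
    exact h.prime_case hm hp hp4 (Or.inl rfl) hpm hb hpb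
  · obtain ⟨p, -, hp, hpc⟩ := Nat.forall_exists_prime_gt_and_zmodEq 0 hnz
      (hcastc (-a) hab4.neg_left)
    have hd : 4 * b ∣ (p : ℤ) - (-a) := (hcast' _).1 hpc.symm.dvd
    obtain ⟨t, ht⟩ := hd
    have e1 : F (-(p : ℤ)) b = F a b :=
      h.m1' ha hb hab ⟨-(4 * t), by linear_combination -ht⟩
    have hpm : m ∣ -(p : ℤ) - 1 := by
      have : -(p : ℤ) - 1 = (a - 1) + b * (-(4 * t)) := by linear_combination -ht
      rw [this]
      exact dvd_add ha (Dvd.dvd.mul_right hb _)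
    have hp4 : p % 4 = 3 := by
      have : (p : ℤ) = -a + 4 * (b * t) := by linear_combination ht
      omega
    have hpb : IsCoprime (-(p : ℤ)) b := by
      have : -(p : ℤ) = a + b * (-(4 * t)) := by linear_combination -ht
      rw [this]
      exact IsCoprime.add_mul_left_left hab _
    rw [← e1]
    exact h.prime_case hm hp hp4 (Or.inr rfl) hpm hb hpb

end H11C
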