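/-
A subgroup N of SL(3, Z) containing the elementary matrices of level m and normalised by
all elementary matrices contains the level m congruence subgroup of the block SL(2, Z).
-/
import Pool.Agent.H.MP_59b15d_al.h11c.Mennicke

namespace H11C

open Matrix

/-- Three by three matrices of determinant one. -/
abbrev SLT := Matrix.SpecialLinearGroup (Fin 3) ℤ
/-- Two by two matrices of determinant one. -/
abbrev SLD := Matrix.SpecialLinearGroup (Fin 2) ℤ

def x12 (t : ℤ) : SLT := ⟨!![1, t, 0; 0, 1, 0; 0, 0, 1], by simp [Matrix.det_fin_three]⟩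
def x13 (t : ℤ) : SLT := ⟨!![1, 0, t; 0, 1, 0; 0, 0, 1], by simp [Matrix.det_fin_three]⟩
def x21 (t : ℤ) : SLT := ⟨!![1, 0, 0; t, 1, 0; 0, 0, 1], by simp [Matrix.det_fin_three]⟩
def x23 (t : ℤ) : SLT := ⟨!![1, 0, 0; 0, 1, t; 0, 0, 1], by simp [Matrix.det_fin_three]⟩
def x31 (t : ℤ) : SLT := ⟨!![1, 0, 0; 0, 1, 0; t, 0, 1], by simp [Matrix.det_fin_three]⟩
def x32 (t : ℤ) : SLT := ⟨!![1, 0, 0; 0, 1, 0; 0, t, 1], by simp [Matrix.det_fin_three]⟩

theorem detD (A : SLD) : A.1 0 0 * A.1 1 1 - A.1 0 1 * A.1 1 0 = 1 := by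
  have := A.2
  rw [Matrix.det_fin_two] at this
  exact this

/-- block in the coordinates 1, 2 -/
def blk (A : SLD) : SLT :=
  ⟨!![A.1 0 0, A.1 0 1, 0; A.1 1 0, A.1 1 1, 0; 0, 0, 1], by
    have := detD A
    simp [Matrix.det_fin_three]
    linear_combination this⟩

/-- block in the coordinates 2, 3 -/
def blk23 (A : SLD) : SLT :=
  ⟨!![1, 0, 0; 0, A.1 0 0, A.1 0 1; 0, A.1 1 0, A.1 1 1], by
    have := detD A
    simp [Matrix.det_fin_three]
    linear_combination this⟩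

/-- block in the coordinates 1, 3 -/
def blk13 (A : SLD) : SLT :=
  ⟨!![A.1 0 0, 0, A.1 0 1; 0, 1, 0; A.1 1 0, 0, A.1 1 1], by
    have := detD A
    simp [Matrix.det_fin_three]
    linear_combination this⟩

/-- cyclic permutation -/
def wc : SLT := ⟨!![0, 0, 1; 1, 0, 0; 0, 1, 0], by simp [Matrix.det_fin_three]⟩
/-- signed transposition of 2, 3 -/
def wt : SLT := ⟨!![1, 0, 0; 0, 0, -1; 0, 1, 0], by simp [Matrix.det_fin_three]⟩
/-- signed transposition of 1, 2 -/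
def ws : SLT := ⟨!![0, -1, 0; 1, 0, 0; 0, 0, 1], by simp [Matrix.det_fin_three]⟩

theorem wt_eq : wt = x32 1 * x23 (-1) * x32 1 := by
  ext i j; fin_cases i <;> fin_cases j <;> simp [wt, x32, x23, Matrix.mul_apply, Fin.sum_univ_three]

theorem ws_eq : ws = x21 1 * x12 (-1) * x21 1 := by
  ext i j; fin_cases i <;> fin_cases j <;> simp [ws, x21, x12, Matrix.mul_apply, Fin.sum_univ_three]

theorem wc_eq : wc = ws * wt := by
  ext i j; fin_cases i <;> fin_cases j <;> simp [wc, ws, wt, Matrix.mul_apply, Fin.sum_univ_three]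

theorem blk_mul (A B : SLD) : blk (A * B) = blk A * blk B := by
  ext i j; fin_cases i <;> fin_cases j <;>
    simp [blk, Matrix.mul_apply, Fin.sum_univ_three, Fin.sum_univ_two]

theorem blk_one : blk 1 = 1 := by
  ext i j; fin_cases i <;> fin_cases j <;> simp [blk]

/-- the block homomorphism -/
def blkHom : SLD →* SLT where
  toFun := blk
  map_one' := blk_one
  map_mul' := blk_mul

theorem blk23_eq (A : SLD) : blk23 A * wc = wc * blk A := by
  ext i j; fin_cases i <;> fin_cases j <;>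
    simp [blk, blk23, wc, Matrix.mul_apply, Fin.sum_univ_three]

theorem blk13_eq (A : SLD) : blk13 A * wt = wt * blk A := by
  ext i j; fin_cases i <;> fin_cases j <;>
    simp [blk, blk13, wt, Matrix.mul_apply, Fin.sum_univ_three]

theorem blk_x13 (A : SLD) (t : ℤ) : blk A * x13 t =
    (x13 ((A.1 0 0 - 1) * t) * x23 (A.1 1 0 * t)) * (x13 t * blk A) := by
  ext i j; fin_cases i <;> fin_cases j <;>
    simp [blk, x13, x23, Matrix.mul_apply, Fin.sum_univ_three] <;> ring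

theorem blk_x23 (A : SLD) (t : ℤ) : blk A * x23 t =
    (x13 (A.1 0 1 * t) * x23 ((A.1 1 1 - 1) * t)) * (x23 t * blk A) := by
  ext i j; fin_cases i <;> fin_cases j <;>
    simp [blk, x13, x23, Matrix.mul_apply, Fin.sum_univ_three] <;> ring

theorem blk_x31 (A : SLD) (t : ℤ) : x31 t * blk A  =
    (blk A * x31 t) * (x31 ((A.1 0 0 - 1) * t) * x32 (A.1 0 1 * t)) := by
  ext i j; fin_cases i <;> fin_cases j <;>
    simp [blk, x31, x32, Matrix.mul_apply, Fin.sum_univ_three] <;> ring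

theorem blk_x32 (A : SLD) (t : ℤ) : x32 t * blk A  =
    (blk A * x32 t) * (x31 (A.1 1 0 * t) * x32 ((A.1 1 1 - 1) * t)) := by
  ext i j; fin_cases i <;> fin_cases j <;>
    simp [blk, x31, x32, Matrix.mul_apply, Fin.sum_univ_three] <;> ring

theorem x12_eq (t : ℤ) : x12 t = x13 t * x32 1 * x13 (-t) * x32 (-1) := by
  ext i j; fin_cases i <;> fin_cases j <;>
    simp [x12, x13, x32, Matrix.mul_apply, Fin.sum_univ_three]

theorem x21_eq (t : ℤ) : x21 t = x23 t * x31 1 * x23 (-t) * x31 (-1) := by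
  ext i j; fin_cases i <;> fin_cases j <;>
    simp [x21, x23, x31, Matrix.mul_apply, Fin.sum_univ_three]

theorem x32_neg (t : ℤ) : x32 (-t) = (x32 t)⁻¹ := by
  rw [eq_inv_iff_mul_eq_one]
  ext i j; fin_cases i <;> fin_cases j <;>
    simp [x32, Matrix.mul_apply, Fin.sum_univ_three]

theorem x21_neg (t : ℤ) : x21 (-t) = (x21 t)⁻¹ := by
  rw [eq_inv_iff_mul_eq_one]
  ext i j; fin_cases i <;> fin_cases j <;>
    simp [x21, Matrix.mul_apply, Fin.sum_univ_three]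

/-- congruence condition of level `m` -/
def G2 (m : ℤ) (A : SLD) : Prop :=
  m ∣ A.1 0 0 - 1 ∧ m ∣ A.1 0 1 ∧ m ∣ A.1 1 0 ∧ m ∣ A.1 1 1 - 1

/-- explicit elements of SL(2, Z) -/
def mk2 (a b c d : ℤ) (h : a * d - b * c = 1) : SLD :=
  ⟨!![a, b; c, d], by rw [Matrix.det_fin_two_of]; exact h⟩

@[simp] theorem mk2_00 (a b c d : ℤ) (h : a * d - b * c = 1) : (mk2 a b c d h).1 0 0 = a := rfl
@[simp] theorem mk2_01 (a b c d : ℤ) (h : a * d - b * c = 1) : (mk2 a b c d h).1 0 1 = b := rfl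
@[simp] theorem mk2_10 (a b c d : ℤ) (h : a * d - b * c = 1) : (mk2 a b c d h).1 1 0 = c := rfl
@[simp] theorem mk2_11 (a b c d : ℤ) (h : a * d - b * c = 1) : (mk2 a b c d h).1 1 1 = d := rfl

theorem G2_exists {m a b : ℤ} (ha : m ∣ a - 1) (hb : m ∣ b) (hab : IsCoprime a b) :
    ∃ A : SLD, G2 m A ∧ A.1 0 0 = a ∧ A.1 0 1 = b := by
  obtain ⟨d, c', hdc⟩ := hab.mul_right (coprime_m ha)
  obtain ⟨s, hs⟩ := ha
  refine ⟨mk2 a b (-(c' * m)) d (by linear_combination hdc), ⟨⟨s, ?_⟩, ?_, ⟨-c', ?_⟩,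
    ⟨-(s * d) - c' * b, ?_⟩⟩, rfl, rfl⟩
  · simpa using hs
  · simpa using hb
  · simp; ring
  · simp only [mk2_11]
    linear_combination hdc - d * hs

theorem G2.row {m : ℤ} {A B : SLD} (hA : G2 m A) (hB : G2 m B) (h0 : A.1 0 0 = B.1 0 0)
    (h1 : A.1 0 1 = B.1 0 1) : ∃ t : ℤ, m ∣ t ∧
      A.1 1 0 = B.1 1 0 + t * B.1 0 0 ∧ A.1 1 1 = B.1 1 1 + t * B.1 0 1 := by
  have dA := detD A
  have dB := detD B
  rw [h0, h1] at dA
  refine ⟨A.1 1 0 * B.1 1 1 - A.1 1 1 * B.1 1 0, ?_, ?_, ?_⟩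
  · exact dvd_sub (Dvd.dvd.mul_right hA.2.2.1 _) (Dvd.dvd.mul_left hB.2.2.1 _)
  · linear_combination -A.1 1 0 * dB + B.1 1 0 * dA
  · linear_combination -A.1 1 1 * dB + B.1 1 1 * dA

/-- the normaliser of a subgroup -/
abbrev nz {G : Type*} [Group G] (N : Subgroup G) : Subgroup G := Subgroup.normalizer (N : Set G)

section main

variable {m : ℤ} {N : Subgroup SLT}

theorem key3 (a b c d b' c' d' : ℤ) (dA : a * d - b * c = 1) :
    (!![a, 0, b * b'; 0, 1, 0; -(c * c'), 0, d' - d * b' * c'] : Matrix (Fin 3) (Fin 3) ℤ) =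
    !![1, 0, 0; 0, 1, 0; 0, -c', 1] *
    ((!![a, b, 0; c, d, 0; 0, 0, 1] * !![1, 0, 0; 0, a, b'; 0, c', d']) *
    (!![1, -b, 0; 0, 1, 0; 0, 0, 1] * (!![1, 0, 0; -c, 1, 0; 0, 0, 1] *
      !![1, 0, 0; 0, 1, -(d * b'); 0, 0, 1]))) := by
  ext i j
  fin_cases i <;> fin_cases j <;>
    simp [Matrix.mul_apply, Fin.sum_univ_three] <;>
    first
    | ring1
    | linear_combination c * dA
    | linear_combination -dA
    | linear_combination d * b' * dA
    | linear_combination -(c * c' * dA)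
    | linear_combination c' * dA
    | linear_combination -(d * b' * c' * dA)

/-- the assumptions: the elementary matrices of level `m` are in `N`, all elementary matrices
normalise `N`. -/
structure NHyp (m : ℤ) (N : Subgroup SLT) : Prop where
  n12 : ∀ t, m ∣ t → x12 t ∈ N
  n13 : ∀ t, m ∣ t → x13 t ∈ N
  n21 : ∀ t, m ∣ t → x21 t ∈ N
  n23 : ∀ t, m ∣ t → x23 t ∈ N
  n31 : ∀ t, m ∣ t → x31 t ∈ N
  n32 : ∀ t, m ∣ t → x32 t ∈ N
  m12 : ∀ t, x12 t ∈ (nz N)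
  m13 : ∀ t, x13 t ∈ (nz N)
  m21 : ∀ t, x21 t ∈ (nz N)
  m23 : ∀ t, x23 t ∈ (nz N)
  m31 : ∀ t, x31 t ∈ (nz N)
  m32 : ∀ t, x32 t ∈ (nz N)

theorem NHyp.blk_mem (h : NHyp m N) (A : SLD) : blk A ∈ (nz N) := by
  have h1 : (⊤ : Subgroup SLD) ≤ (nz N).comap blkHom := by
    rw [← SpecialLinearGroup.SL2Z_generators, Subgroup.closure_le]
    intro g hg
    simp only [Set.mem_insert_iff, Set.mem_singleton_iff] at hg
    rcases hg with rfl | rfl
    · have : blkHom ModularGroup.S = ws := by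
        ext i j; fin_cases i <;> fin_cases j <;> simp [blkHom, blk, ws, ModularGroup.S]
      simp only [SetLike.mem_coe, Subgroup.mem_comap]
      rw [this, ws_eq]
      exact mul_mem (mul_mem (h.m21 _) (h.m12 _)) (h.m21 _)
    · have : blkHom ModularGroup.T = x12 1 := by
        ext i j; fin_cases i <;> fin_cases j <;> simp [blkHom, blk, x12, ModularGroup.T]
      simp only [SetLike.mem_coe, Subgroup.mem_comap]
      rw [this]
      exact h.m12 _
  exact h1 (Subgroup.mem_top A)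

theorem NHyp.wt_mem (h : NHyp m N) : wt ∈ (nz N) := by
  rw [wt_eq]
  exact mul_mem (mul_mem (h.m32 _) (h.m23 _)) (h.m32 _)

theorem NHyp.ws_mem (h : NHyp m N) : ws ∈ (nz N) := by
  rw [ws_eq]
  exact mul_mem (mul_mem (h.m21 _) (h.m12 _)) (h.m21 _)

theorem NHyp.wc_mem (h : NHyp m N) : wc ∈ (nz N) := by
  rw [wc_eq]
  exact mul_mem h.ws_mem h.wt_mem

/-- the quotient group -/
abbrev CQ (N : Subgroup SLT) := (nz N) ⧸ (N.subgroupOf (nz N))

/-- the class of an element of the normaliser -/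
def cl (N : Subgroup SLT) (g : SLT) (hg : g ∈ (nz N)) : CQ N :=
  QuotientGroup.mk' (N.subgroupOf (nz N)) ⟨g, hg⟩

theorem cl_mul {g g' : SLT} (hg : g ∈ (nz N)) (hg' : g' ∈ (nz N)) :
    cl N (g * g') (mul_mem hg hg') = cl N g hg * cl N g' hg' := by
  unfold cl
  rw [← map_mul]
  rfl

theorem cl_one_iff {g : SLT} (hg : g ∈ (nz N)) : cl N g hg = 1 ↔ g ∈ N := by
  unfold cl
  rw [← MonoidHom.mem_ker, QuotientGroup.ker_mk', Subgroup.mem_subgroupOf]

theorem cl_congr {g g' : SLT} (hg : g ∈ (nz N)) (hg' : g' ∈ (nz N)) (e : g = g') :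
    cl N g hg = cl N g' hg' := by
  subst e; rfl

theorem NHyp.comm_of {h : NHyp m N} {z g n : SLT} (hz : z ∈ (nz N))
    (hg : g ∈ (nz N)) (hn : n ∈ N) (e : z * g = n * (g * z)) :
    cl N z hz * cl N g hg = cl N g hg * cl N z hz := by
  have hn' : n ∈ (nz N) := Subgroup.le_normalizer hn
  rw [← cl_mul, ← cl_mul, cl_congr _ (mul_mem hn' (mul_mem hg hz)) e, cl_mul hn' (mul_mem hg hz),
    (cl_one_iff hn').2 hn, one_mul]

theorem NHyp.comm_of' {h : NHyp m N} {z g n : SLT} (hz : z ∈ (nz N))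
    (hg : g ∈ (nz N)) (hn : n ∈ N) (e : g * z = (z * g) * n) :
    cl N z hz * cl N g hg = cl N g hg * cl N z hz := by
  have hn' : n ∈ (nz N) := Subgroup.le_normalizer hn
  rw [← cl_mul, ← cl_mul, cl_congr (mul_mem hg hz) (mul_mem (mul_mem hz hg) hn') e,
    cl_mul (mul_mem hz hg) hn', (cl_one_iff hn').2 hn, mul_one]

/-- elements commuting with the class of `z` -/
def centr (N : Subgroup SLT) (z : SLT) (hz : z ∈ (nz N)) : Subgroup (nz N) :=
  (Subgroup.centralizer {cl N z hz}).comap (QuotientGroup.mk' (N.subgroupOf (nz N)))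

theorem mem_centr {z g : SLT} (hz : z ∈ (nz N)) (hg : g ∈ (nz N)) :
    (⟨g, hg⟩ : (nz N)) ∈ centr N z hz ↔
      cl N z hz * cl N g hg = cl N g hg * cl N z hz := by
  unfold centr
  rw [Subgroup.mem_comap, Subgroup.mem_centralizer_singleton_iff]
  exact ⟨fun h => h.symm, fun h => h.symm⟩

/-- elements of the normaliser commuting with the class of `z`, as a subgroup of SL(3, Z) -/
def centr' (N : Subgroup SLT) (z : SLT) (hz : z ∈ (nz N)) : Subgroup SLT :=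
  (centr N z hz).map (nz N).subtype

theorem mem_centr' {z g : SLT} (hz : z ∈ (nz N)) (hg : g ∈ (nz N)) :
    g ∈ centr' N z hz ↔ cl N z hz * cl N g hg = cl N g hg * cl N z hz := by
  rw [← mem_centr]
  unfold centr'
  rw [Subgroup.mem_map]
  constructor
  · rintro ⟨x, hx, rfl⟩
    exact hx
  · intro hx
    exact ⟨_, hx, rfl⟩

theorem NHyp.central (h : NHyp m N) {A : SLD} (hA : G2 m A) :
    x12 1 ∈ centr' N (blk A) (h.blk_mem A) ∧ x21 1 ∈ centr' N (blk A) (h.blk_mem A) ∧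
      (∀ t, x21 t ∈ centr' N (blk A) (h.blk_mem A)) ∧
      wt ∈ centr' N (blk A) (h.blk_mem A) ∧ wc ∈ centr' N (blk A) (h.blk_mem A) := by
  set Z := centr' N (blk A) (h.blk_mem A) with hZ
  obtain ⟨h1, h2, h3, h4⟩ := hA
  have a13 : ∀ t, x13 t ∈ Z := by
    intro t
    rw [hZ, mem_centr' _ (h.m13 t)]
    exact NHyp.comm_of (h := h) _ _ (mul_mem (h.n13 _ (Dvd.dvd.mul_right h1 _))
      (h.n23 _ (Dvd.dvd.mul_right h3 _))) (blk_x13 A t)
  have a23 : ∀ t, x23 t ∈ Z := by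
    intro t
    rw [hZ, mem_centr' _ (h.m23 t)]
    exact NHyp.comm_of (h := h) _ _ (mul_mem (h.n13 _ (Dvd.dvd.mul_right h2 _))
      (h.n23 _ (Dvd.dvd.mul_right h4 _))) (blk_x23 A t)
  have a31 : ∀ t, x31 t ∈ Z := by
    intro t
    rw [hZ, mem_centr' _ (h.m31 t)]
    exact NHyp.comm_of' (h := h) _ _ (mul_mem (h.n31 _ (Dvd.dvd.mul_right h1 _))
      (h.n32 _ (Dvd.dvd.mul_right h2 _))) (blk_x31 A t)
  have a32 : ∀ t, x32 t ∈ Z := by
    intro t
    rw [hZ, mem_centr' _ (h.m32 t)]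
    exact NHyp.comm_of' (h := h) _ _ (mul_mem (h.n31 _ (Dvd.dvd.mul_right h3 _))
      (h.n32 _ (Dvd.dvd.mul_right h4 _))) (blk_x32 A t)
  have a12 : ∀ t, x12 t ∈ Z := by
    intro t
    rw [x12_eq]
    exact mul_mem (mul_mem (mul_mem (a13 _) (a32 _)) (a13 _)) (a32 _)
  have a21 : ∀ t, x21 t ∈ Z := by
    intro t
    rw [x21_eq]
    exact mul_mem (mul_mem (mul_mem (a23 _) (a31 _)) (a23 _)) (a31 _)
  have awt : wt ∈ Z := by
    rw [wt_eq]
    exact mul_mem (mul_mem (a32 _) (a23 _)) (a32 _)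
  have aws : ws ∈ Z := by
    rw [ws_eq]
    exact mul_mem (mul_mem (a21 _) (a12 _)) (a21 _)
  refine ⟨a12 1, a21 1, a21, awt, ?_⟩
  rw [wc_eq]
  exact mul_mem aws awt

/-- a conjugate by an element commuting with the class -/
theorem cl_conj {z z' w : SLT} (hz : z ∈ (nz N)) (hz' : z' ∈ (nz N))
    (hw : w ∈ (nz N)) (e : z' * w = w * z) (hc : w ∈ centr' N z hz) :
    cl N z' hz' = cl N z hz := by
  rw [mem_centr' hz hw] at hc
  have h1 : cl N z' hz' * cl N w hw = cl N w hw * cl N z hz := by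
    rw [← cl_mul, ← cl_mul]
    exact cl_congr _ _ e
  rw [← hc] at h1
  exact mul_right_cancel h1

open Classical in
/-- the symbol -/
noncomputable def FF (m : ℤ) (N : Subgroup SLT) (h : NHyp m N) (a b : ℤ) : CQ N :=
  if hh : ∃ A : SLD, G2 m A ∧ A.1 0 0 = a ∧ A.1 0 1 = b then
    cl N (blk hh.choose) (h.blk_mem _) else 1

theorem FF_eq (h : NHyp m N) {A : SLD} (hA : G2 m A) {a b : ℤ} (ha : A.1 0 0 = a)
    (hb : A.1 0 1 = b) : FF m N h a b = cl N (blk A) (h.blk_mem A) := by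
  have hh : ∃ A : SLD, G2 m A ∧ A.1 0 0 = a ∧ A.1 0 1 = b := ⟨A, hA, ha, hb⟩
  unfold FF
  rw [dif_pos hh]
  obtain ⟨hB, hB0, hB1⟩ := hh.choose_spec
  set B := hh.choose with hBdef
  obtain ⟨t, htm, ht0, ht1⟩ := hB.row hA (hB0.trans ha.symm) (hB1.trans hb.symm)
  have e : blk B = x21 t * blk A := by
    have e0 : B.1 0 0 = A.1 0 0 := hB0.trans ha.symm
    have e1 : B.1 0 1 = A.1 0 1 := hB1.trans hb.symm
    ext i j
    fin_cases i <;> fin_cases j <;>
      simp [blk, x21, Matrix.mul_apply, Fin.sum_univ_three, e0, e1, ht0, ht1] <;> ring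
  rw [cl_congr _ (mul_mem (h.m21 t) (h.blk_mem A)) e, cl_mul (h.m21 t) (h.blk_mem A),
    (cl_one_iff (h.m21 t)).2 (h.n21 t htm), one_mul]

theorem G2.mul {A B : SLD} (hA : G2 m A) (hB : G2 m B) : G2 m (A * B) := by
  obtain ⟨⟨a1, h1⟩, ⟨a2, h2⟩, ⟨a3, h3⟩, ⟨a4, h4⟩⟩ := hA
  obtain ⟨⟨b1, k1⟩, ⟨b2, k2⟩, ⟨b3, k3⟩, ⟨b4, k4⟩⟩ := hB
  have e00 : (A * B).1 0 0 = A.1 0 0 * B.1 0 0 + A.1 0 1 * B.1 1 0 := by
    simp [Matrix.mul_apply, Fin.sum_univ_two]
  have e01 : (A * B).1 0 1 = A.1 0 0 * B.1 0 1 + A.1 0 1 * B.1 1 1 := by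
    simp [Matrix.mul_apply, Fin.sum_univ_two]
  have e10 : (A * B).1 1 0 = A.1 1 0 * B.1 0 0 + A.1 1 1 * B.1 1 0 := by
    simp [Matrix.mul_apply, Fin.sum_univ_two]
  have e11 : (A * B).1 1 1 = A.1 1 0 * B.1 0 1 + A.1 1 1 * B.1 1 1 := by
    simp [Matrix.mul_apply, Fin.sum_univ_two]
  refine ⟨?_, ?_, ?_, ?_⟩
  · rw [e00]
    exact ⟨a1 * B.1 0 0 + b1 + A.1 0 1 * b3, by linear_combination B.1 0 0 * h1 + k1 + A.1 0 1 * k3⟩
  · rw [e01]
    exact ⟨A.1 0 0 * b2 + a2 * B.1 1 1, by linear_combination A.1 0 0 * k2 + B.1 1 1 * h2⟩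
  · rw [e10]
    exact ⟨a3 * B.1 0 0 + A.1 1 1 * b3, by linear_combination A.1 1 1 * k3 + B.1 0 0 * h3⟩
  · rw [e11]
    exact ⟨a3 * B.1 0 1 + a4 * B.1 1 1 + b4, by
      linear_combination B.1 0 1 * h3 + B.1 1 1 * h4 + k4⟩

theorem NHyp.msym (h : NHyp m N) : MSym m (FF m N h) where
  m1 := by
    intro a b t ha hb hab
    obtain ⟨A, hA, hA0, hA1⟩ := G2_exists ha hb hab
    have dA := detD A
    rw [FF_eq h hA hA0 hA1]
    -- the conjugate
    have hB : G2 m (mk2 (a + t * b) b (A.1 1 0 + t * A.1 1 1 - t * (a + t * b))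
        (A.1 1 1 - t * b) (by rw [hA0, hA1] at dA; linear_combination dA)) := by
      obtain ⟨⟨s1, h1⟩, ⟨s2, h2⟩, ⟨s3, h3⟩, ⟨s4, h4⟩⟩ := hA
      rw [hA0] at h1
      rw [hA1] at h2
      refine ⟨?_, ?_, ?_, ?_⟩
      · simp only [mk2_00]
        exact ⟨s1 + t * s2, by linear_combination h1 + t * h2⟩
      · simp only [mk2_01]; exact hb
      · simp only [mk2_10]
        exact ⟨s3 + t * s4 - t * s1 - t * t * s2, by
          linear_combination h3 + t * h4 - t * h1 - t * t * h2⟩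
      · simp only [mk2_11]
        exact ⟨s4 - t * s2, by linear_combination h4 - t * h2⟩
    rw [FF_eq h hB (mk2_00 _ _ _ _ _) (mk2_01 _ _ _ _ _)]
    refine cl_conj (w := x21 (-t)) (h.blk_mem A) (h.blk_mem _) (h.m21 _) ?_
      ((h.central hA).2.2.1 _)
    ext i j
    fin_cases i <;> fin_cases j <;>
      simp [blk, x21, Matrix.mul_apply, Fin.sum_univ_three, hA0, hA1] <;> ring
  m2 := by
    intro a b t ha hb hab
    obtain ⟨A, hA, hA0, hA1⟩ := G2_exists ha hb hab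
    have dA := detD A
    rw [FF_eq h hA hA0 hA1]
    have hB : G2 m (mk2 a (b + t * (m * a)) (A.1 1 0) (A.1 1 1 + t * m * A.1 1 0)
        (by rw [hA0, hA1] at dA; linear_combination dA)) := by
      obtain ⟨⟨s1, h1⟩, ⟨s2, h2⟩, ⟨s3, h3⟩, ⟨s4, h4⟩⟩ := hA
      rw [hA0] at h1
      rw [hA1] at h2
      refine ⟨?_, ?_, ?_, ?_⟩
      · simp only [mk2_00]; exact ha
      · simp only [mk2_01]; exact ⟨s2 + t * a, by linear_combination h2⟩
      · simp only [mk2_10]; exact ⟨s3, h3⟩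
      · simp only [mk2_11]
        exact ⟨s4 + t * A.1 1 0, by linear_combination h4⟩
    rw [FF_eq h hB (mk2_00 _ _ _ _ _) (mk2_01 _ _ _ _ _)]
    have e : blk (mk2 a (b + t * (m * a)) (A.1 1 0) (A.1 1 1 + t * m * A.1 1 0)
        (by rw [hA0, hA1] at dA; linear_combination dA)) = blk A * x12 (t * m) := by
      ext i j
      fin_cases i <;> fin_cases j <;>
        simp [blk, x12, Matrix.mul_apply, Fin.sum_univ_three, hA0, hA1] <;> ring
    rw [cl_congr _ (mul_mem (h.blk_mem A) (h.m12 _)) e, cl_mul (h.blk_mem A) (h.m12 _),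
      (cl_one_iff (h.m12 _)).2 (h.n12 _ ⟨t, by ring⟩), mul_one]
  m3 := by
    intro a b b' ha hb hb' hab hab'
    obtain ⟨A, hA, hA0, hA1⟩ := G2_exists ha hb hab
    obtain ⟨B, hB, hB0, hB1⟩ := G2_exists ha hb' hab'
    have dA := detD A
    have dB := detD B
    rw [hA0, hA1] at dA
    rw [hB0, hB1] at dB
    rw [FF_eq h hA hA0 hA1, FF_eq h hB hB0 hB1]
    have hd : a * (B.1 1 1 - A.1 1 1 * b' * B.1 1 0) - b * b' * (-(A.1 1 0 * B.1 1 0)) = 1 := by
      linear_combination dB - b' * B.1 1 0 * dA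
    have hD : G2 m (mk2 a (b * b') (-(A.1 1 0 * B.1 1 0)) (B.1 1 1 - A.1 1 1 * b' * B.1 1 0)
        hd) := by
      refine ⟨ha, Dvd.dvd.mul_right hb _, ?_, ?_⟩
      · simp only [mk2_10]
        exact (dvd_neg).2 (Dvd.dvd.mul_right hA.2.2.1 _)
      · simp only [mk2_11]
        have e : B.1 1 1 - A.1 1 1 * b' * B.1 1 0 - 1 =
            (B.1 1 1 - 1) - A.1 1 1 * b' * B.1 1 0 := by
          ring
        rw [e]
        exact dvd_sub hB.2.2.2 (Dvd.dvd.mul_left hB.2.2.1 _)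
    rw [FF_eq h hD (mk2_00 _ _ _ _ _) (mk2_01 _ _ _ _ _)]
    set D := mk2 a (b * b') (-(A.1 1 0 * B.1 1 0)) (B.1 1 1 - A.1 1 1 * b' * B.1 1 0) hd with hDdef
    have hm23 : blk23 B ∈ (nz N) := by
      have : blk23 B = wc * blk B * wc⁻¹ := by rw [eq_mul_inv_iff_mul_eq, blk23_eq]
      rw [this]
      exact mul_mem (mul_mem h.wc_mem (h.blk_mem B)) (inv_mem h.wc_mem)
    have hm13 : blk13 D ∈ (nz N) := by
      have : blk13 D = wt * blk D * wt⁻¹ := by rw [eq_mul_inv_iff_mul_eq, blk13_eq]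
      rw [this]
      exact mul_mem (mul_mem h.wt_mem (h.blk_mem D)) (inv_mem h.wt_mem)
    have e23 : cl N (blk23 B) hm23 = cl N (blk B) (h.blk_mem B) :=
      cl_conj (h.blk_mem B) hm23 h.wc_mem (blk23_eq B) (h.central hB).2.2.2.2
    have e13 : cl N (blk13 D) hm13 = cl N (blk D) (h.blk_mem D) :=
      cl_conj (h.blk_mem D) hm13 h.wt_mem (blk13_eq D) (h.central hD).2.2.2.1
    rw [← e23, ← e13, ← cl_mul]
    have hAB : blk A * blk23 B ∈ (nz N) := mul_mem (h.blk_mem A) hm23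
    -- the identity
    have key : blk13 D = x32 (-(B.1 1 0)) * ((blk A * blk23 B) *
        (x12 (-b) * (x21 (-(A.1 1 0)) * x23 (-(A.1 1 1 * b'))))) := by
      have k3 := key3 a b (A.1 1 0) (A.1 1 1) b' (B.1 1 0) (B.1 1 1) dA
      apply Subtype.ext
      have l1 : (blk13 D).1 = !![a, 0, b * b'; 0, 1, 0; -(A.1 1 0 * B.1 1 0), 0,
          B.1 1 1 - A.1 1 1 * b' * B.1 1 0] := rfl
      have l2 : (blk A).1 = !![a, b, 0; A.1 1 0, A.1 1 1, 0; 0, 0, 1] := by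
        rw [← hA0, ← hA1]; rfl
      have l3 : (blk23 B).1 = !![1, 0, 0; 0, a, b'; 0, B.1 1 0, B.1 1 1] := by
        rw [← hB0, ← hB1]; rfl
      rw [l1]
      show _ = (x32 (-(B.1 1 0))).1 * (((blk A).1 * (blk23 B).1) *
        ((x12 (-b)).1 * ((x21 (-(A.1 1 0))).1 * (x23 (-(A.1 1 1 * b'))).1)))
      rw [l2, l3]
      exact k3
    have n1 : x32 (-(B.1 1 0)) ∈ N := h.n32 _ ((dvd_neg).2 hB.2.2.1)
    have n2 : x12 (-b) * (x21 (-(A.1 1 0)) * x23 (-(A.1 1 1 * b'))) ∈ N :=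
      mul_mem (h.n12 _ ((dvd_neg).2 hb)) (mul_mem (h.n21 _ ((dvd_neg).2 hA.2.2.1))
        (h.n23 _ ((dvd_neg).2 (Dvd.dvd.mul_left hb' _))))
    have n1' := Subgroup.le_normalizer n1
    have n2' := Subgroup.le_normalizer n2
    rw [cl_congr hm13 (mul_mem n1' (mul_mem hAB n2')) key, cl_mul n1' (mul_mem hAB n2'),
      cl_mul hAB n2', (cl_one_iff n1').2 n1, (cl_one_iff n2').2 n2, one_mul, mul_one]
  m4 := by
    intro b hb
    have hB : G2 m (mk2 1 b 0 1 (by ring)) := ⟨by simp, by simpa using hb, by simp, by simp⟩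
    rw [FF_eq h hB (mk2_00 _ _ _ _ _) (mk2_01 _ _ _ _ _)]
    rw [cl_one_iff]
    have e : blk (mk2 1 b 0 1 (by ring)) = x12 b := by
      ext i j
      fin_cases i <;> fin_cases j <;> simp [blk, x12]
    rw [e]
    exact h.n12 b hb
  m6 := by
    intro a a' b c d ha ha' hb hc hd hab hdet
    obtain ⟨A, hA, hA0, hA1⟩ := G2_exists ha hb hab
    have hB : G2 m (mk2 a' b c d hdet) := ⟨ha', hb, hc, hd⟩
    rw [FF_eq h hA hA0 hA1, FF_eq h hB (mk2_00 _ _ _ _ _) (mk2_01 _ _ _ _ _), ← cl_mul]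
    rw [FF_eq h (hA.mul hB)]
    · exact cl_congr _ _ (blk_mul _ _).symm
    · simp [Matrix.mul_apply, Fin.sum_univ_two, hA0, hA1]
    · simp [Matrix.mul_apply, Fin.sum_univ_two, hA0, hA1]; ring

/-- **Main result of this file.** -/
theorem NHyp.blk_mem_N (h : NHyp m N) (hm : 0 < m) {A : SLD} (hA : G2 m A) : blk A ∈ N := by
  have hab : IsCoprime (A.1 0 0) (A.1 0 1) :=
    ⟨A.1 1 1, -(A.1 1 0), by linear_combination detD A⟩
  have := h.msym.eq_one hm hA.1 hA.2.1 hab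
  rw [FF_eq h hA rfl rfl, cl_one_iff] at this
  exact this

end main

end H11C
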