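/-
The generators attached to the Humphries tree: A i, B i and the conjugates of the twists joining
adjacent handles by a rotation of the first handle.
-/
import Pool.Agent.H.MP_59b15d_al.h11c.Hone

set_option autoImplicit false

namespace Pool.Agent.H.MP_59b15d_al.SP

open Pool.MP_59b15d_al.H24T Pool.MP_59b15d_al.H76R

variable {g : ℕ}

lemma Rt_conj_C {i j : Fin g} (hij : i ≠ j) (s : ℤ) :
    Rt i * T (f i - e j) s * (Rt i)⁻¹ = T (e i + e j) s := by
  rw [T_conj, sp_sub, Rt_f, Rt_e_ne hij, ← T_neg]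
  congr 1
  abel

lemma Rt_conj_e (i : Fin g) (s : ℤ) : Rt i * T (e i) s * (Rt i)⁻¹ = T (f i) s := by
  rw [T_conj, Rt_e]

lemma Rt_conj_f (i : Fin g) (s : ℤ) : Rt i * T (f i) s * (Rt i)⁻¹ = T (e i) s := by
  rw [T_conj, Rt_f, T_neg]

/-- The group generated by the transvections of the Humphries tree: `e i`, `f i` and
`e i + e (i + 1)`. -/
def HumT (g : ℕ) : Subgroup (Sp g) :=
  Subgroup.closure {A | (∃ i, A = T (e i) 1) ∨ (∃ i, A = T (f i) 1) ∨
    ∃ i j : Fin g, (j : ℕ) = i + 1 ∧ A = T (e i + e j) 1}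

theorem humT_eq_top : HumT g = ⊤ := by
  rw [eq_top_iff, ← hum_eq_top, Hum, Subgroup.closure_le]
  have he : ∀ i : Fin g, T (e i) 1 ∈ HumT g := fun i =>
    Subgroup.subset_closure (Or.inl ⟨i, rfl⟩)
  have hf : ∀ i : Fin g, T (f i) 1 ∈ HumT g := fun i =>
    Subgroup.subset_closure (Or.inr (Or.inl ⟨i, rfl⟩))
  have hR : ∀ i : Fin g, Rt i ∈ HumT g := fun i =>
    (HumT g).mul_mem ((HumT g).mul_mem (he i) (hf i)) (he i)
  rintro A (⟨i, rfl⟩ | ⟨i, rfl⟩ | ⟨i, j, hij, rfl⟩)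
  · exact he i
  · exact hf i
  · have hne : i ≠ j := by
      rintro rfl
      omega
    have h1 : T (e i + e j) 1 ∈ HumT g :=
      Subgroup.subset_closure (Or.inr (Or.inr ⟨i, j, hij, rfl⟩))
    have h2 := (HumT g).mul_mem ((HumT g).mul_mem ((HumT g).inv_mem (hR i)) h1) (hR i)
    rw [← Rt_conj_C hne] at h2
    have e3 : (Rt i)⁻¹ * (Rt i * T (f i - e j) 1 * (Rt i)⁻¹) * Rt i = T (f i - e j) 1 := by
      group
    rw [e3] at h2
    exact h2

/-- Braid relation. -/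
lemma T_braid {v w : V g} (h : om v w = 1 ∨ om v w = -1) :
    T v 1 * T w 1 * T v 1 = T w 1 * T v 1 * T w 1 := by
  have h1 : T v 1 * T w 1 * T v 1 * (T v 1 * T w 1)⁻¹ = T w 1 := by
    have e1 : T v 1 * T w 1 * T v 1 * (T v 1 * T w 1)⁻¹ =
        T v 1 * T w 1 * T v 1 * (T w 1)⁻¹ * (T v 1)⁻¹ := by group
    have e2 : T v 1 * T w 1 * T v 1 * (T w 1)⁻¹ * (T v 1)⁻¹ =
        T v 1 * (T w 1 * T v 1 * (T w 1)⁻¹) * (T v 1)⁻¹ := by group
    rw [e1, e2, T_conj, T_conj]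
    have h' : om w v = -om v w := om_swap w v
    have e3 : T v 1 (T w 1 v) = (om v w) • w := by
      rw [T_apply w, T_apply v, om_add_left, om_smul_left, om_self, h']
      rcases h with h | h <;> rw [h] <;> module
    rw [e3]
    rcases h with h | h
    · rw [h, one_smul]
    · rw [h, neg_one_smul, T_neg]
  rw [mul_inv_eq_iff_eq_mul] at h1
  rw [h1]
  group

/-- Commutation. -/
lemma T_comm {v w : V g} (h : om v w = 0) (s t : ℤ) : T v s * T w t = T w t * T v s := by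
  have h1 : T v s * T w t * (T v s)⁻¹ = T w t := by
    rw [T_conj, T_fix (by rw [om_swap, h]; rfl)]
  rw [mul_inv_eq_iff_eq_mul] at h1
  exact h1

section

variable {G : Type*} [Group G] {a b : Fin g → G} (h : IsSurf a b)

/-- The rotation of a handle acts by `Rt`. -/
lemma spm_rot {i : Fin g} {α β : MCG a b} (hα : IsA a b i α.1) (hβ : IsB a b i β.1) :
    spm h (α⁻¹ * β * α⁻¹) = Rt i := by
  rw [map_mul, map_mul, map_inv, spm_A h hα, spm_B h hβ, T_inv, neg_neg]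
  rfl

/-- The conjugates of the twists joining two handles. -/
lemma spm_tree {i j : Fin g} (hij : i ≠ j) {α β γ : MCG a b} (hα : IsA a b i α.1)
    (hβ : IsB a b i β.1) (hγ : IsC a b i j γ.1) :
    spm h ((α⁻¹ * β * α⁻¹) * γ * (α⁻¹ * β * α⁻¹)⁻¹) = T (e i + e j) 1 := by
  rw [map_mul, map_mul, map_inv, spm_rot h hα hβ, spm_C h hij hγ, Rt_conj_C hij]

end

end Pool.Agent.H.MP_59b15d_al.SP
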